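import Pool.Agent.MJI.St
import Pool.Agent.MJT.Star

/-!
The operator `LB` on the elements of one alphabet.
-/

set_option autoImplicit false
set_option linter.unusedVariables false

namespace Pool.Agent.MJI

open MvPolynomial Pool.Agent.MJR Pool.Agent.MJR.GradeM Pool.Agent.MJT

noncomputable section

variable {K : Type} [Field K]

theorem em_X (a : Fin 3) (k : ℕ) : em K a (X k) = X (a, k) := by
  unfold em
  exact rename_X _ k

theorem em_C (a : Fin 3) (c : K) : em K a (C c) = C c := by
  unfold em
  exact rename_C _ c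

theorem em_inj (a : Fin 3) : Function.Injective fun k : ℕ => (a, k) := fun x y h =>
  (Prod.mk.inj h).2

theorem dB_em (al : K) (a : Fin 3) (k : ℕ) (f : Lam K) :
    dB al a k (em K a f) = em K a (C (al * (k : K)) * pderiv k f) := by
  unfold dB
  rw [Derivation.smul_apply, map_mul, em_C]
  unfold em
  rw [← pderiv_rename (em_inj a) k f, smul_eq_C_mul]

theorem dB_mul (al : K) (a : Fin 3) (k : ℕ) (f g : B3 K) :
    dB al a k (f * g) = f * dB al a k g + g * dB al a k f := by
  rw [Derivation.leibniz, smul_eq_mul, smul_eq_mul]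

theorem dB_em_ne (al : K) {a c : Fin 3} (h : a ≠ c) (k : ℕ) (f : Lam K) :
    dB al a k (em K c f) = 0 := by
  induction f using MvPolynomial.induction_on with
  | C x =>
    rw [em_C]
    unfold dB
    rw [Derivation.smul_apply, pderiv_C, smul_zero]
  | add p q hp hq => rw [map_add, map_add, hp, hq, add_zero]
  | mul_X p n hp =>
    rw [map_mul, dB_mul, hp, mul_zero, add_zero, em_X]
    unfold dB
    rw [Derivation.smul_apply, pderiv_X_of_ne (fun e => h (Prod.mk.inj e).1.symm), smul_zero,
      mul_zero]

/-- the coefficients of `Zf al G` -/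
private def CZ (al : K) (N i : ℕ) (G : LW K) : Prop :=
  (Zf al G).coeff i = ∑ k ∈ Finset.Icc 1 N, X k * G.coeff (i + k) +
    ∑ k ∈ Finset.Icc 1 i, C (al * (k : K)) * pderiv k (G.coeff (i - k)) +
    C ((al - 1) * (i : K)) * G.coeff i

private theorem CZ_add {al : K} {N i : ℕ} {G H : LW K} (hG : CZ al N i G) (hH : CZ al N i H) :
    CZ al N i (G + H) := by
  unfold CZ at *
  rw [map_add, Polynomial.coeff_add, hG, hH]
  have e1 : ∑ k ∈ Finset.Icc 1 N, X k * (G + H).coeff (i + k) =
      ∑ k ∈ Finset.Icc 1 N, X k * G.coeff (i + k) +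
        ∑ k ∈ Finset.Icc 1 N, X k * H.coeff (i + k) := by
    rw [← Finset.sum_add_distrib]
    exact Finset.sum_congr rfl fun k _ => by rw [Polynomial.coeff_add, mul_add]
  have e2 : ∑ k ∈ Finset.Icc 1 i, C (al * (k : K)) * pderiv k ((G + H).coeff (i - k)) =
      ∑ k ∈ Finset.Icc 1 i, C (al * (k : K)) * pderiv k (G.coeff (i - k)) +
        ∑ k ∈ Finset.Icc 1 i, C (al * (k : K)) * pderiv k (H.coeff (i - k)) := by
    rw [← Finset.sum_add_distrib]
    exact Finset.sum_congr rfl fun k _ => by rw [Polynomial.coeff_add, map_add, mul_add]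
  rw [e1, e2, Polynomial.coeff_add]
  ring

private theorem CZ_zero {al : K} {N i : ℕ} : CZ al N i (0 : LW K) := by
  unfold CZ
  rw [map_zero, Polynomial.coeff_zero, mul_zero, add_zero]
  have e1 : ∑ k ∈ Finset.Icc 1 N, (X k : Lam K) * (0 : LW K).coeff (i + k) = 0 :=
    Finset.sum_eq_zero fun k _ => by rw [Polynomial.coeff_zero, mul_zero]
  have e2 : ∑ k ∈ Finset.Icc 1 i, (C (al * (k : K)) : Lam K) *
      pderiv k ((0 : LW K).coeff (i - k)) = 0 :=
    Finset.sum_eq_zero fun k _ => by rw [Polynomial.coeff_zero, map_zero, mul_zero]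
  rw [e1, e2, add_zero]

private theorem CZ_mono {al : K} {N i j : ℕ} (hj : j ≤ N) (f : Lam K) :
    CZ al N i (Polynomial.monomial j f) := by
  unfold CZ
  rw [FormExtM.coeff_Zf_monomial]
  rcases lt_trichotomy i j with h | h | h
  · have e1 : ∑ k ∈ Finset.Icc 1 N, (X k : Lam K) * (Polynomial.monomial j f).coeff (i + k) =
        X (j - i) * f := by
      rw [Finset.sum_eq_single (j - i)]
      · rw [Polynomial.coeff_monomial, if_pos (by omega)]
      · intro k _ hk
        rw [Polynomial.coeff_monomial, if_neg (by omega), mul_zero]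
      · intro hk
        exact absurd (Finset.mem_Icc.2 ⟨by omega, by omega⟩) hk
    have e2 : ∑ k ∈ Finset.Icc 1 i, (C (al * (k : K)) : Lam K) *
        pderiv k ((Polynomial.monomial j f).coeff (i - k)) = 0 :=
      Finset.sum_eq_zero fun k _ => by
        rw [Polynomial.coeff_monomial, if_neg (by omega), map_zero, mul_zero]
    rw [e1, e2, Polynomial.coeff_monomial, if_neg (by omega), if_neg (by omega),
      if_neg (by omega), mul_zero, add_zero, add_zero]
  · subst h
    have e1 : ∑ k ∈ Finset.Icc 1 N, (X k : Lam K) * (Polynomial.monomial i f).coeff (i + k) =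
        0 :=
      Finset.sum_eq_zero fun k hk => by
        rw [Finset.mem_Icc] at hk
        rw [Polynomial.coeff_monomial, if_neg (by omega), mul_zero]
    have e2 : ∑ k ∈ Finset.Icc 1 i, (C (al * (k : K)) : Lam K) *
        pderiv k ((Polynomial.monomial i f).coeff (i - k)) = 0 :=
      Finset.sum_eq_zero fun k hk => by
        rw [Finset.mem_Icc] at hk
        rw [Polynomial.coeff_monomial, if_neg (by omega), map_zero, mul_zero]
    rw [e1, e2, Polynomial.coeff_monomial, if_pos rfl, if_pos rfl, zero_add, zero_add]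
  · have e1 : ∑ k ∈ Finset.Icc 1 N, (X k : Lam K) * (Polynomial.monomial j f).coeff (i + k) =
        0 :=
      Finset.sum_eq_zero fun k hk => by
        rw [Polynomial.coeff_monomial, if_neg (by omega), mul_zero]
    have e2 : ∑ k ∈ Finset.Icc 1 i, (C (al * (k : K)) : Lam K) *
        pderiv k ((Polynomial.monomial j f).coeff (i - k)) =
        C (al * ((i - j : ℕ) : K)) * pderiv (i - j) f := by
      rw [Finset.sum_eq_single (i - j)]
      · rw [Polynomial.coeff_monomial, if_pos (by omega)]
      · intro k hk hk2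
        rw [Finset.mem_Icc] at hk
        rw [Polynomial.coeff_monomial, if_neg (by omega), map_zero, mul_zero]
      · intro hk
        exact absurd (Finset.mem_Icc.2 ⟨by omega, by omega⟩) hk
    rw [e1, e2, Polynomial.coeff_monomial, if_neg (by omega), if_pos h, if_neg (by omega),
      mul_zero, add_zero, zero_add]

theorem coeff_Zf (al : K) (N : ℕ) (G : LW K) (hG : ∀ j, N < j → G.coeff j = 0) (i : ℕ) :
    (Zf al G).coeff i = ∑ k ∈ Finset.Icc 1 N, X k * G.coeff (i + k) +
      ∑ k ∈ Finset.Icc 1 i, C (al * (k : K)) * pderiv k (G.coeff (i - k)) +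
      C ((al - 1) * (i : K)) * G.coeff i := by
  have h1 : G = ∑ j ∈ Finset.range (N + 1), Polynomial.monomial j (G.coeff j) := by
    apply Polynomial.as_sum_range'
    exact Nat.lt_succ_of_le (Polynomial.natDegree_le_iff_coeff_eq_zero.2 hG)
  have h2 : CZ al N i (∑ j ∈ Finset.range (N + 1), Polynomial.monomial j (G.coeff j)) :=
    Finset.sum_induction _ (CZ al N i) (fun _ _ => CZ_add) CZ_zero fun j hj =>
      CZ_mono (Nat.lt_succ_iff.1 (Finset.mem_range.1 hj)) _
  rw [← h1] at h2
  exact h2

theorem T_coeff {n : ℕ} {G : LW K} (hG : G ∈ T K n) {j : ℕ} (hj : n < j) : G.coeff j = 0 := by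
  induction hG using Submodule.span_induction with
  | mem G hG =>
    obtain ⟨i, s, h0, hs, rfl⟩ := hG
    rw [Polynomial.coeff_monomial, if_neg (by omega)]
  | zero => rw [Polynomial.coeff_zero]
  | add a b _ _ ha hb => rw [Polynomial.coeff_add, ha, hb, add_zero]
  | smul c a _ ha => rw [Polynomial.coeff_smul, ha, smul_zero]

/-- `LB` on the elements of one alphabet -/
theorem LB_em (al : K) (a : Fin 3) (N : ℕ) (G : LW K) (hG : ∀ j, N < j → G.coeff j = 0)
    (g : B3 K) (hg : ∀ k, dB al a k g = 0) (i : ℕ) :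
    LB al a N (fun i => em K a (G.coeff i) * g) i = em K a ((Zf al G).coeff i) * g := by
  rw [coeff_Zf al N G hG i]
  unfold LB
  rw [map_add, map_add, map_sum, map_sum, add_mul, add_mul, Finset.sum_mul, Finset.sum_mul]
  congr 1
  · congr 1
    · exact Finset.sum_congr rfl fun k _ => by rw [map_mul, em_X, mul_assoc]
    · exact Finset.sum_congr rfl fun k _ => by
        rw [dB_mul, hg, mul_zero, zero_add, dB_em, mul_comm]
  · show C ((al - 1) * (i : K)) * (em K a (G.coeff i) * g) =
      em K a (C ((al - 1) * (i : K)) * G.coeff i) * g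
    rw [map_mul (em K a), em_C, mul_assoc]

/-- **Em.** -/
theorem emm (K : Type) [Field K] (al : K) : EmSt K al := by
  intro a N n m
  induction m with
  | zero => intro G g _ _ _ i; rfl
  | succ m ih =>
    intro G g hn hg hG i
    have h1 : LB al a N (fun i => em K a (G.coeff i) * g) =
        fun i => em K a ((Zf al G).coeff i) * g := by
      funext i
      exact LB_em al a N G (fun j hj => T_coeff hG (by omega)) g hg i
    rw [Function.iterate_succ_apply, h1, ih (Zf al G) g hn hg (Zf_T al hG) i, pow_succ,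
      Module.End.mul_apply]

end

end Pool.Agent.MJI
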