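import Pool.Agent.MJI.St
import Pool.Agent.MJT.FormExt
import Pool.Agent.MJT.Gen

/-!
Existence of the extension of an operator on the symmetric functions of weight `n` which is
symmetric and commutes with all `Mo`.
-/

namespace Pool.Agent.MJI

open MvPolynomial Pool.Agent.MJR Pool.Agent.MJR.GradeM Pool.Agent.MJT

noncomputable section

variable {K : Type} [Field K]

theorem hat_BW (al : K) (hF : FormExtSt K al) {n : ℕ} (Q : Lam K →ₗ[K] Lam K)
    (hs : ∀ f ∈ S K n, ∀ g ∈ S K n, FormM.B al (Q f) g = FormM.B al f (Q g))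
    (hM : ∀ k, ∀ f ∈ S K n, Q (Mo al k f) = Mo al k (Q f)) {x y : LW K}
    (hx : x ∈ TT K n) (hy : y ∈ TT K n) :
    FormM.BW al (Th al (mu Q y)) (Th al x) = FormM.BW al (Th al y) (Th al (mu Q x)) := by
  induction hx using Submodule.span_induction with
  | mem x hx =>
    obtain ⟨a, f, hf, rfl⟩ := hx
    induction hy using Submodule.span_induction with
    | mem y hy =>
      obtain ⟨c, g, hg, rfl⟩ := hy
      have e1 : ∀ u v : Lam K, FormM.BW al ((Zf al ^ c) (Polynomial.C u))
          ((Zf al ^ a) (Polynomial.C v)) = FormM.B al u (Mo al (c + a) v) := by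
        intro u v
        rw [BW_pow al hF, hF.cc, ← Module.End.mul_apply, ← pow_add, Mo_apply]
      rw [mu_monomial, mu_monomial, Th_monomial, Th_monomial, Th_monomial, Th_monomial, e1, e1,
        hs g hg _ (Mo_S al (c + a) hf), hM (c + a) f hf]
    | zero => simp only [map_zero, LinearMap.zero_apply]
    | add a b _ _ ha hb =>
      simp only [map_add, LinearMap.add_apply] at ha hb ⊢
      rw [ha, hb]
    | smul c a _ ha =>
      simp only [map_smul, LinearMap.smul_apply] at ha ⊢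
      rw [ha]
  | zero => simp only [map_zero]
  | add a b _ _ ha hb => simp only [map_add, ha, hb]
  | smul c a _ ha => simp only [map_smul, ha]

theorem hat_ker (al : K) (hG : GenSt K al) (hF : FormExtSt K al) {n : ℕ}
    (Q : Lam K →ₗ[K] Lam K) (hQ : ∀ f ∈ S K n, Q f ∈ S K n)
    (hs : ∀ f ∈ S K n, ∀ g ∈ S K n, FormM.B al (Q f) g = FormM.B al f (Q g))
    (hM : ∀ k, ∀ f ∈ S K n, Q (Mo al k f) = Mo al k (Q f)) {x : LW K} (hx : x ∈ TT K n)
    (h0 : Th al x = 0) : Th al (mu Q x) = 0 := by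
  refine hF.nd n _ (Th_TT al (mu_TT hQ hx)) fun F hFT => ?_
  obtain ⟨y, hy, rfl⟩ := exists_Th al hG hFT
  rw [← hat_BW al hF Q hs hM hx hy, h0, map_zero]

/-- Factorization of linear maps. -/
theorem hat_fac {V : Type} [AddCommGroup V] [Module K V] (W : Submodule K V) (A B : V →ₗ[K] V)
    (h : ∀ x ∈ W, A x = 0 → B x = 0) : ∃ P : V →ₗ[K] V, ∀ x ∈ W, P (A x) = B x := by
  let A' : W →ₗ[K] V := A ∘ₗ W.subtype
  let B' : W →ₗ[K] V := B ∘ₗ W.subtype
  have hk : LinearMap.ker A' ≤ LinearMap.ker B' := fun x hx => h x.1 x.2 hx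
  obtain ⟨P, hP⟩ := LinearMap.exists_extend
    ((LinearMap.ker A').liftQ B' hk ∘ₗ A'.quotKerEquivRange.symm.toLinearMap)
  refine ⟨P, fun x hx => ?_⟩
  have h1 := LinearMap.congr_fun hP ⟨A' ⟨x, hx⟩, LinearMap.mem_range_self A' _⟩
  have h2 : A'.quotKerEquivRange.symm ⟨A' ⟨x, hx⟩, LinearMap.mem_range_self A' _⟩ =
      (LinearMap.ker A').mkQ ⟨x, hx⟩ :=
    LinearMap.quotKerEquivRange_symm_apply_image A' ⟨x, hx⟩ (LinearMap.mem_range_self A' _)
  exact h1.trans (congrArg ((LinearMap.ker A').liftQ B' hk) h2)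

theorem hat (K : Type) [Field K] [CharZero K] (al : K) (hal : al ≠ 0) : HatSt K al := by
  intro n Q hQ hs hM
  have hG := gen K al hal
  have hF := formExt K al hal
  obtain ⟨P, hP⟩ := hat_fac (TT K n) (Th al) (Th al ∘ₗ mu Q)
    (fun x hx h0 => hat_ker al hG hF Q hQ hs hM hx h0)
  have hP' : ∀ x ∈ TT K n, P (Th al x) = Th al (mu Q x) := hP
  have hc : ∀ f ∈ S K n, P (Polynomial.C f) = Polynomial.C (Q f) := by
    intro f hf
    have h1 : (Polynomial.C f : LW K) ∈ TT K n := by
      rw [← Polynomial.monomial_zero_left]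
      exact mem_TT hf
    have h2 := hP' _ h1
    rw [Th_C, ← Polynomial.monomial_zero_left, mu_monomial, Polynomial.monomial_zero_left,
      Polynomial.monomial_zero_left, Th_C] at h2
    exact h2
  have ht : ∀ G ∈ T K n, P G ∈ T K n := by
    intro G hGT
    obtain ⟨x, hx, rfl⟩ := exists_Th al hG hGT
    rw [hP' x hx]
    exact Th_TT al (mu_TT hQ hx)
  have hsym : ∀ F ∈ T K n, ∀ G ∈ T K n, FormM.BW al (P F) G = FormM.BW al F (P G) := by
    intro F hFT G hGT
    obtain ⟨x, hx, rfl⟩ := exists_Th al hG hFT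
    obtain ⟨y, hy, rfl⟩ := exists_Th al hG hGT
    rw [hP' x hx, hP' y hy]
    exact hat_BW al hF Q hs hM hy hx
  refine ⟨P, ⟨?_, hc, ht, ?_, hsym⟩⟩
  · intro G hGT
    obtain ⟨x, hx, rfl⟩ := exists_Th al hG hGT
    have h1 : Polynomial.X * x ∈ TT K n := by
      clear hGT
      induction hx using Submodule.span_induction with
      | mem x hx =>
        obtain ⟨a, f, hf, rfl⟩ := hx
        rw [Polynomial.X_mul_monomial]
        exact mem_TT hf
      | zero => rw [mul_zero]; exact Submodule.zero_mem _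
      | add a b _ _ ha hb => rw [mul_add]; exact Submodule.add_mem _ ha hb
      | smul c a _ ha => rw [mul_smul_comm]; exact Submodule.smul_mem _ _ ha
    rw [← Th_X_mul, hP' _ h1, mu_X_mul, Th_X_mul, hP' x hx]
  · intro G hGT
    rw [← sub_eq_zero]
    have hu : i0 K (P G) - Q (i0 K G) ∈ S K n :=
      Submodule.sub_mem _ (i0_T (ht G hGT)) (hQ _ (i0_T hGT))
    have h0 : ∀ f ∈ S K n, FormM.B al f (i0 K (P G) - Q (i0 K G)) = 0 := by
      intro f hf
      rw [map_sub, ← hF.cc, ← hsym _ (C_S hf) _ hGT, hc f hf, hF.cc, hs f hf _ (i0_T hGT),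
        sub_self]
    have h1 : (Polynomial.C (i0 K (P G) - Q (i0 K G)) : LW K) = 0 := by
      refine hF.nd n _ (C_S hu) fun F hFT => ?_
      rw [FormM.BW_symm, hF.cc, FormM.B_symm]
      exact h0 _ (i0_T hFT)
    exact Polynomial.C_eq_zero.mp h1

end

end Pool.Agent.MJI
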