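import Pool.Agent.MJI.Int2

/-!
Integrality from `(L_b - L_c) h` and from `h` at `v = 0`.
-/

namespace Pool.Agent.MJI

open MvPolynomial Pool.Agent.MJR Pool.Agent.MJR.GradeM Pool.Agent.MJT

noncomputable section

variable {K : Type} [Field K]

namespace Int1M

theorem dB_X_mul (al : K) {a b : Fin 3} (hab : a ≠ b) (k l : ℕ) (f : B3 K) :
    dB al a k (X (b, l) * f) = X (b, l) * dB al a k f := by
  classical
  rw [Int2M.dB_apply, Int2M.dB_apply, pderiv_mul, pderiv_X,
    Pi.single_eq_of_ne (fun h => hab (congrArg Prod.fst h).symm)]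
  ring

theorem dB_C_mul (al c : K) (a : Fin 3) (k : ℕ) (f : B3 K) :
    dB al a k (C c * f) = C c * dB al a k f := by
  rw [Int2M.dB_apply, Int2M.dB_apply, pderiv_C_mul]
  ring

theorem dB_comm (al : K) (a b : Fin 3) (k l : ℕ) (f : B3 K) :
    dB al a k (dB al b l f) = dB al b l (dB al a k f) := by
  rw [Int2M.dB_apply, Int2M.dB_apply, Int2M.dB_apply, Int2M.dB_apply, pderiv_C_mul, pderiv_C_mul]
  have h : pderiv (a, k) (pderiv (b, l) f) = pderiv (b, l) (pderiv (a, k) f) := by
    apply MvPolynomial.ext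
    intro m
    rw [coeff_pderiv, coeff_pderiv, coeff_pderiv, coeff_pderiv, add_right_comm]
    by_cases hab : (a, k) = (b, l)
    · rw [hab]
    · have e1 : (m + Finsupp.single (a, k) 1 : Fin 3 × ℕ →₀ ℕ) (b, l) = m (b, l) := by
        rw [Finsupp.add_apply, Finsupp.single_apply, if_neg hab, add_zero]
      have e2 : (m + Finsupp.single (b, l) 1 : Fin 3 × ℕ →₀ ℕ) (a, k) = m (a, k) := by
        rw [Finsupp.add_apply, Finsupp.single_apply, if_neg (fun h => hab h.symm), add_zero]
      rw [e1, e2]
      ring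
  rw [h]
  ring

/-- a `K`-linear map which commutes with the operations of the alphabet `a` commutes with `LB` -/
theorem LB_map (al : K) (a : Fin 3) (N : ℕ) (φ : B3 K →+ B3 K)
    (h1 : ∀ k f, φ (X (a, k) * f) = X (a, k) * φ f) (h2 : ∀ k f, φ (dB al a k f) = dB al a k (φ f))
    (h3 : ∀ c f, φ (C c * f) = C c * φ f) (f : ℕ → B3 K) (i : ℕ) :
    φ (LB al a N f i) = LB al a N (fun i => φ (f i)) i := by
  unfold LB
  rw [map_add, map_add, map_sum, map_sum, h3]
  simp only [h1, h2]

theorem LB_add (al : K) (a : Fin 3) (N : ℕ) (f g : ℕ → B3 K) (i : ℕ) :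
    LB al a N (fun i => f i + g i) i = LB al a N f i + LB al a N g i := by
  unfold LB
  simp only [mul_add, map_add, Finset.sum_add_distrib]
  ring

theorem LB_sum (al : K) (a : Fin 3) (N : ℕ) {ι : Type} (s : Finset ι) (f : ι → ℕ → B3 K)
    (i : ℕ) : LB al a N (fun i => ∑ x ∈ s, f x i) i = ∑ x ∈ s, LB al a N (f x) i := by
  classical
  induction s using Finset.induction_on with
  | empty =>
    simp only [Finset.sum_empty]
    unfold LB
    simp
  | insert x s hx ih =>
    simp only [Finset.sum_insert hx]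
    rw [LB_add, ih]

/-- The two operators commute. -/
theorem LB12_comm (al : K) {b c : Fin 3} (hbc : b ≠ c) (N : ℕ) (h : ℕ → ℕ → B3 K) (i j : ℕ) :
    LB1 al b N (LB2 al c N h) i j = LB2 al c N (LB1 al b N h) i j := by
  have e1 : ∀ k, X (c, k) * LB al b N (fun i' => h i' (j + k)) i =
      LB al b N (fun i' => X (c, k) * h i' (j + k)) i := by
    intro k
    exact LB_map al b N (AddMonoidHom.mulLeft (X (c, k))) (fun l f => mul_left_comm _ _ _)
      (fun l f => (dB_X_mul al hbc l k f).symm) (fun l f => mul_left_comm _ _ _) _ i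
  have e2 : ∀ k, dB al c k (LB al b N (fun i' => h i' (j - k)) i) =
      LB al b N (fun i' => dB al c k (h i' (j - k))) i := by
    intro k
    exact LB_map al b N ((dB al c k : B3 K →ₗ[K] B3 K) : B3 K →+ B3 K)
      (fun l f => dB_X_mul al hbc.symm k l f) (fun l f => dB_comm al c b k l f)
      (fun l f => dB_C_mul al l c k f) _ i
  have e3 : ∀ r : K, C r * LB al b N (fun i' => h i' j) i =
      LB al b N (fun i' => C r * h i' j) i := by
    intro r
    exact LB_map al b N (AddMonoidHom.mulLeft (C r)) (fun l f => mul_left_comm _ _ _)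
      (fun l f => (dB_C_mul al r b l f).symm) (fun l f => mul_left_comm _ _ _) _ i
  change LB al b N (fun i' => LB al c N (fun j' => h i' j') j) i =
    LB al c N (fun j' => LB al b N (fun i' => h i' j') i) j
  have e4 : (fun i' => LB al c N (fun j' => h i' j') j) = fun i' =>
      (∑ k ∈ Finset.Icc 1 N, X (c, k) * h i' (j + k) +
        ∑ k ∈ Finset.Icc 1 j, dB al c k (h i' (j - k))) + C ((al - 1) * (j : K)) * h i' j := rfl
  rw [e4, LB_add, LB_add, LB_sum, LB_sum, ← e3]
  simp only [← e1, ← e2]
  rfl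

theorem LB1_sub (al : K) (b : Fin 3) (N : ℕ) (h r : ℕ → ℕ → B3 K) (i j : ℕ) :
    LB1 al b N (fun i j => h i j - r i j) i j = LB1 al b N h i j - LB1 al b N r i j := by
  have h1 := congrFun (Int2M.LB_sub al b N (fun i' => h i' j) (fun i' => r i' j)) i
  exact h1

theorem LB2_iter_apply (al : K) (c : Fin 3) (N m : ℕ) (h : ℕ → ℕ → B3 K) (i : ℕ) :
    ((LB2 al c N)^[m] h) i = (LB al c N)^[m] (h i) := by
  induction m generalizing h with
  | zero => rfl
  | succ m ih =>
    rw [Function.iterate_succ_apply, Function.iterate_succ_apply, ih]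
    rfl

theorem LB1_LB2_iter (al : K) {b c : Fin 3} (hbc : b ≠ c) (N m : ℕ) (h : ℕ → ℕ → B3 K) :
    (LB2 al c N)^[m] (LB1 al b N h) = LB1 al b N ((LB2 al c N)^[m] h) := by
  induction m generalizing h with
  | zero => rfl
  | succ m ih =>
    have h1 : LB2 al c N (LB1 al b N h) = LB1 al b N (LB2 al c N h) := by
      funext i j
      exact (LB12_comm al hbc N h i j).symm
    rw [Function.iterate_succ_apply, Function.iterate_succ_apply, h1, ih]

end Int1M

open Int1M Int2M in
/-- (Int1) Integrality from `(L_b - L_c) h` and from `h` at `v = 0`. -/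
theorem int1 (K : Type) [Field K] (al : K) : Int1St K al := by
  intro G hal b c hbc N h _ hj h0 hr i j
  have key : ∀ m i, ((LB2 al c N)^[m] h) i 0 ∈ BI (σ := Fin 3 × ℕ) G := by
    intro m
    induction m with
    | zero => exact h0
    | succ m ih =>
      intro i
      have e3 : ((LB2 al c N)^[m] (LB2 al c N h)) i = (LB al c N)^[m] (LB2 al c N h i) :=
        LB2_iter_apply al c N m _ i
      have e4 : LB2 al c N h i = (LB1 al b N h i) -
          (fun j => LB1 al b N h i j - LB2 al c N h i j) := by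
        funext j
        rw [Pi.sub_apply]
        ring
      have e5 : (LB al c N)^[m] (LB2 al c N h i) = (LB al c N)^[m] (LB1 al b N h i) -
          (LB al c N)^[m] (fun j => LB1 al b N h i j - LB2 al c N h i j) := by
        rw [← LB_iter_sub, ← e4]
      have e6 : (LB al c N)^[m] (LB1 al b N h i) = LB1 al b N ((LB2 al c N)^[m] h) i := by
        rw [← LB2_iter_apply al c N m (LB1 al b N h) i, LB1_LB2_iter al hbc]
      rw [Function.iterate_succ_apply, e3, e5, e6, Pi.sub_apply]
      refine sub_mem ?_ (LB_iter_mem hal c N m (fun j => hr i j) 0)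
      exact LB_mem hal b N (fun i => ih i) i
  refine int2 K al G hal c N (h i) (hj i) (fun m => ?_) j
  rw [← LB2_iter_apply]
  exact key m i

end

end Pool.Agent.MJI
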