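import Pool.Agent.MJI.St
import Pool.Agent.MJT.Dhat

/-!
Kernels of operators: supports, the constant term, and the Lax operator in the first alphabet.
-/

namespace Pool.Agent.MJI

open MvPolynomial Pool.Agent.MJR Pool.Agent.MJR.GradeM Pool.Agent.MJT

noncomputable section

variable {K : Type} [Field K]

theorem kera_coeff_T {n : ℕ} {G : LW K} (hG : G ∈ T K n) {i : ℕ} (hi : n < i) :
    G.coeff i = 0 := by
  induction hG using Submodule.span_induction with
  | mem G hG =>
    obtain ⟨j, s, h0, hs, rfl⟩ := hG
    rw [Polynomial.coeff_monomial, if_neg (by omega)]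
  | zero => exact Polynomial.coeff_zero _
  | add a b _ _ ha hb => rw [Polynomial.coeff_add, ha, hb, add_zero]
  | smul c a _ ha => rw [Polynomial.coeff_smul, ha, smul_zero]

/-- `u_r = w^j p_r` has weight `n`. -/
theorem kera_mem {n j : ℕ} (hj : j ≤ n) (r : (n - j).Partition) :
    (Polynomial.monomial j (pp K r) : LW K) ∈ T K n := by
  have h0 : 0 ∉ r.parts := fun h => absurd (r.parts_pos h) (lt_irrefl 0)
  have hs : j + r.parts.sum = n := by
    rw [r.parts_sum]
    omega
  exact mem_T h0 hs

/-- The coefficients of the full Lax operator. -/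
theorem kera_coeff_Zf (al : K) {n N : ℕ} (hN : n ≤ N) {G : LW K} (hG : G ∈ T K n) (i : ℕ) :
    (Zf al G).coeff i = ∑ k ∈ Finset.Icc 1 N, X k * G.coeff (i + k) +
      ∑ k ∈ Finset.Icc 1 i, C (al * (k : K)) * pderiv k (G.coeff (i - k)) +
        C ((al - 1) * (i : K)) * G.coeff i := by
  induction hG using Submodule.span_induction with
  | mem G hG =>
    obtain ⟨j, s, h0, hs, rfl⟩ := hG
    have hj : j ≤ N := by omega
    generalize mon K s = f
    rw [DhatM.Zf_monomial, Polynomial.coeff_add, Polynomial.coeff_add, Polynomial.coeff_smul,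
      Polynomial.coeff_monomial, Polynomial.coeff_X_pow_mul', Polynomial.finsetSum_coeff]
    simp only [Polynomial.coeff_monomial, FormM.coeff_U]
    rw [Finset.sum_ite_eq' (Finset.range j) i (fun a => X (j - a) * f)]
    have e1 : ∑ k ∈ Finset.Icc 1 N, X k * (if j = i + k then f else 0) =
        if i ∈ Finset.range j then X (j - i) * f else 0 := by
      by_cases h : i < j
      · rw [if_pos (Finset.mem_range.2 h), Finset.sum_eq_single (j - i)]
        · rw [if_pos (by omega)]
        · intro k _ hk
          rw [if_neg (by omega), mul_zero]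
        · intro hk
          exact absurd (Finset.mem_Icc.2 ⟨by omega, by omega⟩) hk
      · rw [if_neg (fun h2 => h (Finset.mem_range.1 h2))]
        refine Finset.sum_eq_zero fun k hk => ?_
        have := (Finset.mem_Icc.1 hk).1
        rw [if_neg (by omega), mul_zero]
    have e2 : ∑ k ∈ Finset.Icc 1 i, C (al * (k : K)) * pderiv k (if j = i - k then f else 0) =
        if j ≤ i then C (al * ((i - j : ℕ) : K)) * pderiv (i - j) f else 0 := by
      by_cases h : j ≤ i
      · rw [if_pos h]
        rcases Nat.eq_or_lt_of_le h with h2 | h2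
        · subst h2
          rw [Nat.sub_self]
          have e3 : ∀ k ∈ Finset.Icc 1 j, C (al * (k : K)) * pderiv k
              (if j = j - k then f else 0) = 0 := by
            intro k hk
            have := (Finset.mem_Icc.1 hk)
            rw [if_neg (by omega), map_zero, mul_zero]
          rw [Finset.sum_eq_zero e3]
          simp
        · rw [Finset.sum_eq_single (i - j)]
          · rw [if_pos (by omega)]
          · intro k hk hk2
            have := (Finset.mem_Icc.1 hk)
            rw [if_neg (by omega), map_zero, mul_zero]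
          · intro hk
            exact absurd (Finset.mem_Icc.2 ⟨by omega, by omega⟩) hk
      · rw [if_neg h]
        refine Finset.sum_eq_zero fun k hk => ?_
        have := (Finset.mem_Icc.1 hk)
        rw [if_neg (by omega), map_zero, mul_zero]
    rw [e1, e2]
    have e4 : ((al - 1) * (j : K)) • (if j = i then f else 0) =
        C ((al - 1) * (i : K)) * (if j = i then f else 0) := by
      by_cases h : j = i
      · subst h
        rw [smul_eq_C_mul]
      · rw [if_neg h, smul_zero, mul_zero]
    rw [e4]
    ring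
  | zero => simp
  | add a b _ _ ha hb =>
    rw [map_add, Polynomial.coeff_add, ha, hb]
    simp only [Polynomial.coeff_add, mul_add, map_add, Finset.sum_add_distrib]
    ring
  | smul c a _ ha =>
    rw [map_smul, Polynomial.coeff_smul, ha]
    simp only [Polynomial.coeff_smul, mul_smul_comm, ← Finset.smul_sum, smul_add,
      Derivation.map_smul]

theorem kera_pderiv_em_ne {b c : Fin 3} (hbc : b ≠ c) (k : ℕ) (p : Lam K) :
    pderiv (b, k) (em K c p) = 0 := by
  induction p using MvPolynomial.induction_on with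
  | C a => unfold em; rw [rename_C, pderiv_C]
  | add p q hp hq => rw [map_add, map_add, hp, hq, add_zero]
  | mul_X p i hp =>
    have h1 : em K c (X i : Lam K) = X (c, i) := by unfold em; rw [rename_X]
    rw [map_mul, pderiv_mul, hp, h1, pderiv_X_of_ne (fun h => hbc (congrArg Prod.fst h).symm)]
    ring

theorem kera_pderiv_em (b : Fin 3) (k : ℕ) (p : Lam K) :
    pderiv (b, k) (em K b p) = em K b (pderiv k p) :=
  pderiv_rename (f := fun k : ℕ => (b, k)) (fun _ _ h => congrArg Prod.snd h) k p

/-- `dB` on a product of elements of two alphabets -/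
theorem kera_dB (al : K) {b c : Fin 3} (hbc : b ≠ c) (k : ℕ) (u : K) (g p : Lam K) :
    dB al b k (C u * em K b g * em K c p) =
      C u * em K b (C (al * (k : K)) * pderiv k g) * em K c p := by
  have h1 : em K b (C (al * (k : K))) = C (al * (k : K)) := by unfold em; rw [rename_C]
  unfold dB
  rw [Derivation.smul_apply, pderiv_mul, pderiv_mul, pderiv_C, kera_pderiv_em_ne hbc,
    kera_pderiv_em, map_mul, h1, smul_eq_C_mul]
  ring

theorem kera_LB_sum {ι : Type} (al : K) (a : Fin 3) (N : ℕ) (s : Finset ι) (f : ι → ℕ → B3 K)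
    (i : ℕ) : LB al a N (fun i' => ∑ r ∈ s, f r i') i = ∑ r ∈ s, LB al a N (f r) i := by
  unfold LB
  rw [Finset.sum_add_distrib, Finset.sum_add_distrib, ← Finset.mul_sum]
  congr 1
  congr 1
  · rw [Finset.sum_comm]
    exact Finset.sum_congr rfl fun k _ => by rw [Finset.mul_sum]
  · rw [Finset.sum_comm]
    exact Finset.sum_congr rfl fun k _ => by rw [map_sum]

/-- `LB` on the sequence `u e_b(G_i) e_c(p)` -/
theorem kera_LB (al : K) {b c : Fin 3} (hbc : b ≠ c) {n N : ℕ} (hN : n ≤ N) {G : LW K}
    (hG : G ∈ T K n) (u : K) (p : Lam K) (i : ℕ) :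
    LB al b N (fun i' => C u * em K b (G.coeff i') * em K c p) i =
      C u * em K b ((Zf al G).coeff i) * em K c p := by
  have hX : ∀ k : ℕ, em K b (X k : Lam K) = X (b, k) := fun k => by unfold em; rw [rename_X]
  have hC : ∀ x : K, em K b (C x : Lam K) = C x := fun x => by unfold em; rw [rename_C]
  rw [kera_coeff_Zf al hN hG]
  unfold LB
  simp only [kera_dB al hbc]
  have h3 : em K b (C ((al - 1) * (i : K)) * G.coeff i) =
      C ((al - 1) * (i : K)) * em K b (G.coeff i) := by rw [map_mul, hC]
  rw [map_add, map_add, map_sum, map_sum, h3, mul_add, mul_add, add_mul, add_mul,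
    Finset.mul_sum, Finset.mul_sum, Finset.sum_mul, Finset.sum_mul]
  congr 1
  · congr 1
    refine Finset.sum_congr rfl fun k _ => ?_
    rw [map_mul, hX]
    ring
  · ring

/-- (KerSt s1) -/
theorem ker_s1 (K : Type) [Field K] (al : K) : ∀ (n : ℕ) (A : LW K →ₗ[K] LW K),
    (∀ G ∈ T K n, A G ∈ T K n) → ∀ (b c : Fin 3) (i j : ℕ),
    n < i → kerW al n A b c i j = 0 := by
  intro n A hA b c i j hi
  unfold kerW
  split_ifs with hj
  · refine Finset.sum_eq_zero fun r _ => ?_
    rw [kera_coeff_T (hA _ (kera_mem hj r)) hi, map_zero, mul_zero, zero_mul]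
  · rfl

/-- (KerSt s2) -/
theorem ker_s2 (K : Type) [Field K] (al : K) : ∀ (n : ℕ) (A : LW K →ₗ[K] LW K) (b c : Fin 3)
    (i j : ℕ), n < j → kerW al n A b c i j = 0 := by
  intro n A b c i j hj
  unfold kerW
  rw [if_neg (by omega)]

/-- (KerSt z1) -/
theorem ker_z1 (K : Type) [Field K] (al : K) : ∀ (n : ℕ) (A : LW K →ₗ[K] LW K)
    (Q : Lam K →ₗ[K] Lam K),
    (∀ f ∈ S K n, A (Polynomial.C f) = Polynomial.C (Q f)) → ∀ (b c : Fin 3) (i : ℕ),
    kerW al n A b c i 0 = if i = 0 then kerL al n Q b c else 0 := by
  intro n A Q hA b c i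
  unfold kerW
  rw [if_pos (Nat.zero_le n)]
  have h1 : ∀ r : n.Partition, (A (Polynomial.monomial 0 (pp K r))).coeff i =
      if i = 0 then Q (pp K r) else 0 := by
    intro r
    have h0 : 0 ∉ r.parts := fun h => absurd (r.parts_pos h) (lt_irrefl 0)
    have h2 : pp K r ∈ S K n := mem_S h0 r.parts_sum
    rw [Polynomial.monomial_zero_left, hA _ h2, Polynomial.coeff_C]
  change ∑ r : n.Partition, C (wtp al r)⁻¹ *
    em K b ((A (Polynomial.monomial 0 (pp K r))).coeff i) * em K c (pp K r) = _
  by_cases hi : i = 0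
  · rw [if_pos hi]
    unfold kerL
    refine Finset.sum_congr rfl fun r _ => ?_
    rw [h1, if_pos hi]
  · rw [if_neg hi]
    refine Finset.sum_eq_zero fun r _ => ?_
    rw [h1, if_neg hi, map_zero, mul_zero, zero_mul]

/-- (KerSt lb) -/
theorem ker_lb (K : Type) [Field K] (al : K) : ∀ (n N : ℕ) (A : LW K →ₗ[K] LW K), n ≤ N →
    (∀ G ∈ T K n, A G ∈ T K n) → ∀ (b c : Fin 3), b ≠ c → ∀ (i j : ℕ),
    LB1 al b N (kerW al n A b c) i j = kerW al n (Zf al ∘ₗ A) b c i j := by
  intro n N A hN hA b c hbc i j
  unfold LB1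
  by_cases hj : j ≤ n
  · have e1 : (fun i' => kerW al n A b c i' j) = fun i' => ∑ r : (n - j).Partition,
        C (wtp al r)⁻¹ * em K b ((A (Polynomial.monomial j (pp K r))).coeff i') *
          em K c (pp K r) := by
      funext i'
      unfold kerW
      rw [if_pos hj]
    rw [e1, kera_LB_sum]
    unfold kerW
    rw [if_pos hj]
    refine Finset.sum_congr rfl fun r _ => ?_
    rw [kera_LB al hbc hN (hA _ (kera_mem hj r))]
    rfl
  · have e1 : (fun i' => kerW al n A b c i' j) = fun _ => 0 := by
      funext i'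
      unfold kerW
      rw [if_neg hj]
    rw [e1]
    unfold kerW LB
    rw [if_neg hj]
    simp

end

end Pool.Agent.MJI
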