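import Pool.Agent.MJI.St
import Pool.Agent.MJT.FormExt
import Pool.Agent.MJT.ExtB
import Pool.Agent.MJR.RecAM

/-!
Integrality of the coefficients `h` of `psi`: the kernel of a self-adjoint operator is symmetric.
-/

namespace Pool.Agent.MJI

open MvPolynomial Pool.Agent.MJR Pool.Agent.MJR.GradeM Pool.Agent.MJT

noncomputable section

namespace KerBM

variable {K : Type} [Field K]

theorem B_pp (al : K) {n : ℕ} (r s : n.Partition) :
    FormM.B al (pp K r) (pp K s) = if r = s then wtp al r else 0 := by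
  classical
  rw [pp_eq_monomial r, FormM.B_monomial, pp_eq_monomial s, coeff_monomial, FormM.W_expo]
  by_cases h : r = s
  · rw [if_pos h, if_pos (by rw [h]), mul_one]
  · rw [if_neg h, if_neg (fun h' => h (expo_injective h'.symm)), mul_zero]

/-- The expansion of an element of weight `n`. -/
theorem S_expand [CharZero K] {al : K} (hal : al ≠ 0) {n : ℕ} {f : Lam K} (hf : f ∈ S K n) :
    f = ∑ r : n.Partition, C ((wtp al r)⁻¹ * FormM.B al f (pp K r)) * pp K r := by
  classical
  obtain ⟨v, rfl⟩ := exists_toL hf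
  have h1 : ∀ r : n.Partition, (wtp al r)⁻¹ * FormM.B al (toL v) (pp K r) = v r := by
    intro r
    unfold toL
    rw [map_sum, LinearMap.sum_apply, Finset.sum_eq_single r]
    · rw [← smul_eq_C_mul, map_smul, LinearMap.smul_apply, B_pp, if_pos rfl, smul_eq_mul,
        mul_comm (v r), ← mul_assoc, inv_mul_cancel₀ (RecAM.wtp_ne hal r), one_mul]
    · intro s _ hs
      rw [← smul_eq_C_mul, map_smul, LinearMap.smul_apply, B_pp, if_neg hs, smul_zero]
    · intro h
      exact absurd (Finset.mem_univ r) h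
  simp only [h1]
  rfl

theorem coeff_mem {n : ℕ} {G : LW K} (hG : G ∈ T K n) {i : ℕ} (hi : i ≤ n) :
    G.coeff i ∈ S K (n - i) := by
  induction hG using Submodule.span_induction with
  | mem G hG =>
    obtain ⟨j, s, h0, hs, rfl⟩ := hG
    rw [Polynomial.coeff_monomial]
    split_ifs with h
    · exact mem_S h0 (by omega)
    · exact Submodule.zero_mem _
  | zero => rw [Polynomial.coeff_zero]; exact Submodule.zero_mem _
  | add a b _ _ ha hb => rw [Polynomial.coeff_add]; exact Submodule.add_mem _ ha hb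
  | smul c a _ ha => rw [Polynomial.coeff_smul]; exact Submodule.smul_mem _ _ ha

theorem coeff_gt {n : ℕ} {G : LW K} (hG : G ∈ T K n) {i : ℕ} (hi : n < i) :
    G.coeff i = 0 := by
  induction hG using Submodule.span_induction with
  | mem G hG =>
    obtain ⟨j, s, h0, hs, rfl⟩ := hG
    rw [Polynomial.coeff_monomial, if_neg (by omega)]
  | zero => rw [Polynomial.coeff_zero]
  | add a b _ _ ha hb => rw [Polynomial.coeff_add, ha, hb, add_zero]
  | smul c a _ ha => rw [Polynomial.coeff_smul, ha, smul_zero]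

theorem u_T {n j : ℕ} (hj : j ≤ n) (r : (n - j).Partition) :
    (Polynomial.monomial j (pp K r) : LW K) ∈ T K n := by
  refine mem_T (s := r.parts) ?_ ?_
  · intro h0
    exact absurd (r.parts_pos h0) (lt_irrefl 0)
  · rw [r.parts_sum]
    omega

/-- The expansion of a coefficient of an element of weight `n`. -/
theorem coeff_expand [CharZero K] {al : K} (hal : al ≠ 0) {n : ℕ} {G : LW K} (hG : G ∈ T K n)
    {i : ℕ} (hi : i ≤ n) : G.coeff i = ∑ r : (n - i).Partition,
      C ((wtp al r)⁻¹ * FormM.BW al G (Polynomial.monomial i (pp K r))) * pp K r := by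
  have h1 := S_expand hal (coeff_mem hG hi)
  conv_lhs => rw [h1]
  refine Finset.sum_congr rfl fun r _ => ?_
  rw [FormM.BW_symm, FormM.BW_monomial, FormM.B_symm]

theorem em_C (a : Fin 3) (c : K) : em K a (C c) = C c := by
  unfold em
  exact rename_C _ c

theorem em_X (a : Fin 3) (k : ℕ) : em K a (X k) = X (a, k) := by
  unfold em
  exact rename_X _ k

theorem kerW_expand [CharZero K] {al : K} (hal : al ≠ 0) {n : ℕ} (A : LW K →ₗ[K] LW K)
    (hA : ∀ G ∈ T K n, A G ∈ T K n) (b c : Fin 3) {i j : ℕ} (hi : i ≤ n) (hj : j ≤ n) :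
    kerW al n A b c i j = ∑ r : (n - j).Partition, ∑ s : (n - i).Partition,
      C ((wtp al r)⁻¹ * (wtp al s)⁻¹ * FormM.BW al (A (Polynomial.monomial j (pp K r)))
        (Polynomial.monomial i (pp K s))) * em K b (pp K s) * em K c (pp K r) := by
  unfold kerW
  rw [if_pos hj]
  refine Finset.sum_congr rfl fun r _ => ?_
  rw [coeff_expand hal (hA _ (u_T hj r)) hi, map_sum, Finset.mul_sum, Finset.sum_mul]
  refine Finset.sum_congr rfl fun s _ => ?_
  rw [map_mul, em_C, ← mul_assoc, ← C_mul]
  congr 3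
  ring

theorem kerW_s1 {al : K} {n : ℕ} (A : LW K →ₗ[K] LW K)
    (hA : ∀ G ∈ T K n, A G ∈ T K n) (b c : Fin 3) {i j : ℕ} (hi : n < i) :
    kerW al n A b c i j = 0 := by
  unfold kerW
  split_ifs with hj
  · refine Finset.sum_eq_zero fun r _ => ?_
    rw [coeff_gt (hA _ (u_T hj r)) hi, map_zero, mul_zero, zero_mul]
  · rfl

theorem kerW_s2 {al : K} {n : ℕ} (A : LW K →ₗ[K] LW K) (b c : Fin 3) {i j : ℕ} (hj : n < j) :
    kerW al n A b c i j = 0 := by
  unfold kerW
  rw [if_neg (not_le.2 hj)]

end KerBM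

open KerBM

/-- The kernel of a self-adjoint operator is symmetric. -/
theorem ker_sym (K : Type) [Field K] [CharZero K] (al : K) (hal : al ≠ 0) :
    ∀ (n : ℕ) (A : LW K →ₗ[K] LW K), (∀ G ∈ T K n, A G ∈ T K n) →
      (∀ F ∈ T K n, ∀ G ∈ T K n, FormM.BW al (A F) G = FormM.BW al F (A G)) →
      ∀ (b c : Fin 3) (i j : ℕ), kerW al n A b c i j = kerW al n A c b j i := by
  intro n A hA hs b c i j
  by_cases hi : i ≤ n
  · by_cases hj : j ≤ n
    · rw [kerW_expand hal A hA b c hi hj, kerW_expand hal A hA c b hj hi, Finset.sum_comm]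
      refine Finset.sum_congr rfl fun s _ => Finset.sum_congr rfl fun r _ => ?_
      rw [hs _ (u_T hj r) _ (u_T hi s), FormM.BW_symm al (Polynomial.monomial j (pp K r)),
        mul_comm (wtp al r)⁻¹]
      ring
    · rw [kerW_s2 A b c (not_le.1 hj), kerW_s1 A hA c b (not_le.1 hj)]
  · rw [kerW_s1 A hA b c (not_le.1 hi), kerW_s2 A c b (not_le.1 hi)]

end

end Pool.Agent.MJI
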