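import Pool.Agent.MJI.KerB

/-!
Integrality of the coefficients `h` of `psi`: the product of a kernel with `e_b e_c`.
-/

namespace Pool.Agent.MJI

open MvPolynomial Pool.Agent.MJR Pool.Agent.MJR.GradeM Pool.Agent.MJT

noncomputable section

open KerBM

namespace KerCM

variable {K : Type} [Field K]

theorem em_Bx (b : Fin 3) {N : ℕ} {G : LW K} (hG : ∀ i, N < i → G.coeff i = 0) :
    em K b (Bx K G) = ∑ i ∈ Finset.range (N + 1), X (b, i + 1) * em K b (G.coeff i) := by
  have h1 : Bx K G = ∑ i ∈ Finset.range (N + 1), X (i + 1) * G.coeff i := by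
    have h2 : G = ∑ i ∈ Finset.range (N + 1), Polynomial.monomial i (G.coeff i) := by
      refine Polynomial.as_sum_range' G (N + 1) ?_
      by_cases h0 : G = 0
      · rw [h0, Polynomial.natDegree_zero]
        omega
      · by_contra hc
        push Not at hc
        exact h0 (Polynomial.leadingCoeff_eq_zero.1 (hG _ (by omega)))
    conv_lhs => rw [h2]
    rw [map_sum]
    exact Finset.sum_congr rfl fun i _ => Bx_monomial i _
  rw [h1, map_sum]
  refine Finset.sum_congr rfl fun i _ => ?_
  rw [map_mul, em_X]

/-- The expansion of an element of weight `n`. -/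
theorem T_expand [CharZero K] {al : K} (hal : al ≠ 0) {n : ℕ} {G : LW K} (hG : G ∈ T K n) :
    G = ∑ j ∈ Finset.range (n + 1), ∑ r : (n - j).Partition,
      ((wtp al r)⁻¹ * FormM.BW al G (Polynomial.monomial j (pp K r))) •
        (Polynomial.monomial j (pp K r) : LW K) := by
  have h2 : G = ∑ i ∈ Finset.range (n + 1), Polynomial.monomial i (G.coeff i) := by
    refine Polynomial.as_sum_range' G (n + 1) ?_
    by_cases h0 : G = 0
    · rw [h0, Polynomial.natDegree_zero]
      omega
    · by_contra hc
      push Not at hc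
      exact h0 (Polynomial.leadingCoeff_eq_zero.1 (coeff_gt hG (by omega)))
  conv_lhs => rw [h2]
  refine Finset.sum_congr rfl fun j hj => ?_
  have hj' : j ≤ n := by
    have := Finset.mem_range.1 hj
    omega
  conv_lhs => rw [coeff_expand hal hG hj']
  rw [map_sum]
  refine Finset.sum_congr rfl fun r _ => ?_
  rw [← smul_eq_C_mul, Polynomial.smul_monomial]

end KerCM

open KerCM

/-- The product with `e_b e_c`. -/
theorem ker_ee (K : Type) [Field K] [CharZero K] (al : K) (hal : al ≠ 0) :
    ∀ (n N : ℕ) (A : LW K →ₗ[K] LW K), n ≤ N → (∀ G ∈ T K n, A G ∈ T K n) →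
      ∀ (b c : Fin 3), ∑ i ∈ Finset.range (N + 1), ∑ j ∈ Finset.range (N + 1),
        X (b, i + 1) * X (c, j + 1) * kerW al n A b c i j =
          kerL al (n + 1) (Bx K ∘ₗ A ∘ₗ Bs al) b c := by
  intro n N A hnN hA b c
  have hbs := (formExt K al hal).bs
  -- the left side
  have e1 : ∑ i ∈ Finset.range (N + 1), ∑ j ∈ Finset.range (N + 1),
        X (b, i + 1) * X (c, j + 1) * kerW al n A b c i j =
      ∑ j ∈ Finset.range (n + 1), ∑ r : (n - j).Partition, C (wtp al r)⁻¹ *
        em K b (Bx K (A (Polynomial.monomial j (pp K r)))) *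
          em K c (Bx K (Polynomial.monomial j (pp K r))) := by
    rw [Finset.sum_comm]
    have hsub : Finset.range (n + 1) ⊆ Finset.range (N + 1) :=
      Finset.range_subset_range.2 (by omega)
    rw [← Finset.sum_subset hsub]
    · refine Finset.sum_congr rfl fun j hj => ?_
      have hj' : j ≤ n := by
        have := Finset.mem_range.1 hj
        omega
      unfold kerW
      simp only [if_pos hj', Finset.mul_sum]
      rw [Finset.sum_comm]
      refine Finset.sum_congr rfl fun r _ => ?_
      rw [em_Bx (N := N) b (fun i hi => coeff_gt (hA _ (u_T hj' r)) (by omega)), Bx_monomial,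
        map_mul, em_X, Finset.mul_sum, Finset.sum_mul]
      refine Finset.sum_congr rfl fun i _ => ?_
      ring
    · intro j _ hj
      refine Finset.sum_eq_zero fun i _ => ?_
      have hj' : n < j := by
        by_contra hc
        exact hj (Finset.mem_range.2 (by omega))
      rw [kerW_s2 A b c hj', mul_zero]
  -- the right side
  have e2 : kerL al (n + 1) (Bx K ∘ₗ A ∘ₗ Bs al) b c =
      ∑ j ∈ Finset.range (n + 1), ∑ r : (n - j).Partition, C (wtp al r)⁻¹ *
        em K b (Bx K (A (Polynomial.monomial j (pp K r)))) *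
          em K c (Bx K (Polynomial.monomial j (pp K r))) := by
    have e3 : ∀ s : (n + 1).Partition, em K b ((Bx K ∘ₗ A ∘ₗ Bs al) (pp K s)) =
        ∑ j ∈ Finset.range (n + 1), ∑ r : (n - j).Partition,
          C ((wtp al r)⁻¹ * FormM.B al (Bx K (Polynomial.monomial j (pp K r))) (pp K s)) *
            em K b (Bx K (A (Polynomial.monomial j (pp K r)))) := by
      intro s
      have hs : pp K s ∈ S K (n + 1) := by
        refine mem_S (s := s.parts) ?_ s.parts_sum
        intro h0
        exact absurd (s.parts_pos h0) (lt_irrefl 0)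
      have hT : Bs al (pp K s) ∈ T K n := Bs_T al hs
      rw [LinearMap.comp_apply, LinearMap.comp_apply]
      conv_lhs => rw [T_expand hal hT]
      simp only [map_sum, map_smul]
      refine Finset.sum_congr rfl fun j _ => Finset.sum_congr rfl fun r _ => ?_
      rw [FormM.BW_symm, ← hbs, smul_eq_C_mul]
    unfold kerL
    simp only [e3, Finset.mul_sum, Finset.sum_mul]
    rw [Finset.sum_comm]
    refine Finset.sum_congr rfl fun j hj => ?_
    have hj' : j ≤ n := by
      have := Finset.mem_range.1 hj
      omega
    rw [Finset.sum_comm]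
    refine Finset.sum_congr rfl fun r _ => ?_
    have h5 : Bx K (Polynomial.monomial j (pp K r)) ∈ S K (n + 1) := Bx_S (u_T hj' r)
    conv_rhs => rw [S_expand hal h5]
    rw [map_sum, Finset.mul_sum]
    refine Finset.sum_congr rfl fun s _ => ?_
    rw [map_mul (em K c), em_C, C_mul, C_mul]
    ring
  rw [e1, e2]

end

end Pool.Agent.MJI
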