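import Pool.Agent.MJI.St
import Pool.Agent.MJT.ExtB
import Pool.Agent.MJT.Dhat

/-!
Integrality of the coefficients `h` of `psi`: the identity between two consecutive levels.
-/

namespace Pool.Agent.MJI

open MvPolynomial Pool.Agent.MJR Pool.Agent.MJR.GradeM Pool.Agent.MJT

noncomputable section

namespace KeyM

variable {K : Type} [Field K]

theorem expo_ones (n : ℕ) : expo (ones n) = Finsupp.single 1 n := by
  ext i
  unfold expo ones
  rw [Multiset.toFinsupp_apply, Multiset.count_replicate, Finsupp.single_apply]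

/-- The coefficient of `p_1^(n+1)` in `Bx G`. -/
theorem coeff_Bx (n : ℕ) (G : LW K) :
    coeff (expo (ones (n + 1))) (Bx K G) = coeff (expo (ones n)) (i0 K G) := by
  induction G using Polynomial.induction_on' with
  | add p q hp hq => rw [map_add, map_add, coeff_add, coeff_add, hp, hq]
  | monomial j f =>
    rw [Bx_monomial, i0_apply, expo_ones, expo_ones]
    rcases j with _ | j
    · have h1 : Finsupp.single 1 (n + 1) = (Finsupp.single 1 1 + Finsupp.single 1 n : ℕ →₀ ℕ) := by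
        rw [← Finsupp.single_add, add_comm]
      rw [zero_add, h1, coeff_X_mul, Polynomial.monomial_zero_left, Polynomial.coeff_C_zero]
    · rw [coeff_X_mul', if_neg, Polynomial.coeff_monomial, if_neg (Nat.succ_ne_zero j), coeff_zero]
      rw [Finsupp.mem_support_iff, not_not, Finsupp.single_apply, if_neg]
      omega

theorem pp_S {n : ℕ} (v : n.Partition) : pp K v ∈ S K n := by
  refine mem_S (s := v.parts) ?_ v.parts_sum
  intro h0
  exact absurd (v.parts_pos h0) (lt_irrefl 0)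

theorem hat_pow {al : K} {n : ℕ} {Q : Lam K →ₗ[K] Lam K} {P : LW K →ₗ[K] LW K}
    (hP : IsHat al n Q P) (m : ℕ) : ∀ G ∈ T K n, P ((Zf al ^ m) G) = (Zf al ^ m) (P G) := by
  induction m with
  | zero => intro G _; rfl
  | succ m ih =>
    intro G hG
    rw [pow_succ, Module.End.mul_apply, Module.End.mul_apply, ih _ (Zf_T al hG), hP.z G hG]

end KeyM

open KeyM

/-- The identity between two consecutive levels. -/
theorem key (hQ : ∀ {n : ℕ} {J : n.Partition → n.Partition → QA}, IsJack RatFunc.X n J → QtSt J) :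
    KeySt := by
  intro J hJ n t P hP m f hf
  have hX : (RatFunc.X : QA) ≠ 0 := RatFunc.X_ne_zero
  obtain ⟨O, hO⟩ : ∃ O : Lam QA →ₗ[QA] Lam QA, O =
      Bx QA ∘ₗ (Zf RatFunc.X ^ m) ∘ₗ P ∘ₗ Bs RatFunc.X := ⟨_, rfl⟩
  have hOa : ∀ f, O f = Bx QA ((Zf RatFunc.X ^ m) (P (Bs RatFunc.X f))) := by
    intro f
    rw [hO]
    rfl
  have hq : (Polynomial.aeval (Zf (RatFunc.X : QA))) (Polynomial.X ^ m : Polynomial QA) =
      Zf RatFunc.X ^ m := by
    rw [map_pow, Polynomial.aeval_X]
  have hS : ∀ f ∈ S QA (n + 1), O f ∈ S QA (n + 1) := by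
    intro f hf
    rw [hOa]
    exact Bx_S (Zf_pow_T _ m (hP.t _ (Bs_T _ hf)))
  have hH : ∀ r, ∀ f ∈ S QA (n + 1), O (H RatFunc.X r f) = H RatFunc.X r (O f) := by
    intro r f hf
    have h1 := ext (RatFunc.X : QA) hX (dhat QA RatFunc.X hX) P (Qt RatFunc.X (J n) t) hP.z hP.c
      ((hQ (hJ n)).mo t) (Polynomial.X ^ m) r f hf
    rw [hq] at h1
    rw [hOa, hOa, h1]
  rw [← hOa, (hQ (hJ (n + 1))).all O hS hH f hf]
  refine Finset.sum_congr rfl fun v _ => ?_
  congr 1
  have hT : (Bs RatFunc.X (pp QA v)) ∈ T QA n := Bs_T _ (pp_S v)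
  rw [hOa, coeff_Bx, ← hat_pow hP m _ hT, hP.i _ (Zf_pow_T _ m hT),
    (hQ (hJ n)).one t _ (i0_T (Zf_pow_T _ m hT))]

end

end Pool.Agent.MJI
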