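import Pool.Agent.MJI.St

/-!
Integrality of the coefficients `h` of `psi`: permutation of the alphabets.
-/

namespace Pool.Agent.MJI

open MvPolynomial Pool.Agent.MJR Pool.Agent.MJR.GradeM Pool.Agent.MJT

noncomputable section

namespace PerM

variable {K : Type} [Field K]

theorem inj (s : Equiv.Perm (Fin 3)) :
    Function.Injective (fun x : Fin 3 × ℕ => ((s x.1, x.2) : Fin 3 × ℕ)) := by
  rintro ⟨x1, x2⟩ ⟨y1, y2⟩ h
  have h1 := congrArg Prod.fst h
  have h2 := congrArg Prod.snd h
  have h3 : x1 = y1 := s.injective h1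
  exact Prod.ext h3 h2

theorem perm_X (s : Equiv.Perm (Fin 3)) (a : Fin 3) (k : ℕ) :
    perm K s (X (a, k)) = X (s a, k) := rename_X _ _

theorem perm_C (s : Equiv.Perm (Fin 3)) (z : K) : perm K s (C z) = C z := rename_C _ _

theorem perm_dB (al : K) (s : Equiv.Perm (Fin 3)) (a : Fin 3) (k : ℕ) (f : B3 K) :
    dB al (s a) k (perm K s f) = perm K s (dB al a k f) := by
  have h := pderiv_rename (R := K) (inj s) (a, k) f
  change (al * (k : K)) • pderiv (s a, k) (perm K s f) =
    perm K s ((al * (k : K)) • pderiv (a, k) f)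
  rw [map_smul]
  exact congrArg _ h

theorem perm_LB (al : K) (s : Equiv.Perm (Fin 3)) (a : Fin 3) (N : ℕ) (f : ℕ → B3 K) (i : ℕ) :
    LB al (s a) N (fun i => perm K s (f i)) i = perm K s (LB al a N f i) := by
  unfold LB
  have h1 : perm K s (C ((al - 1) * (i : K)) * f i) =
      C ((al - 1) * (i : K)) * perm K s (f i) := by
    rw [map_mul (perm K s), perm_C]
  rw [map_add, map_add, map_sum, map_sum, h1]
  congr 2
  · refine Finset.sum_congr rfl fun k _ => ?_
    rw [map_mul, perm_X]
  · refine Finset.sum_congr rfl fun k _ => ?_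
    rw [perm_dB]

theorem perm_LBm (al : K) (s : Equiv.Perm (Fin 3)) (a : Fin 3) (N m : ℕ) (f : ℕ → B3 K) :
    (LB al (s a) N)^[m] (fun i => perm K s (f i)) =
      fun i => perm K s ((LB al a N)^[m] f i) := by
  induction m generalizing f with
  | zero => rfl
  | succ m ih =>
    rw [Function.iterate_succ_apply, Function.iterate_succ_apply, ← ih]
    congr 1
    funext i
    exact perm_LB al s a N f i

theorem perm_LB1 (al : K) (s : Equiv.Perm (Fin 3)) (a : Fin 3) (N : ℕ) (h : ℕ → ℕ → B3 K)
    (i j : ℕ) :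
    LB1 al (s a) N (fun i j => perm K s (h i j)) i j = perm K s (LB1 al a N h i j) :=
  perm_LB al s a N (fun i' => h i' j) i

theorem perm_LB2 (al : K) (s : Equiv.Perm (Fin 3)) (a : Fin 3) (N : ℕ) (h : ℕ → ℕ → B3 K)
    (i j : ℕ) :
    LB2 al (s a) N (fun i j => perm K s (h i j)) i j = perm K s (LB2 al a N h i j) :=
  perm_LB al s a N (fun j' => h i j') j

theorem perm_LB1m (al : K) (s : Equiv.Perm (Fin 3)) (a : Fin 3) (N m : ℕ) (h : ℕ → ℕ → B3 K) :
    (LB1 al (s a) N)^[m] (fun i j => perm K s (h i j)) =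
      fun i j => perm K s ((LB1 al a N)^[m] h i j) := by
  induction m generalizing h with
  | zero => rfl
  | succ m ih =>
    rw [Function.iterate_succ_apply, Function.iterate_succ_apply, ← ih]
    congr 1
    funext i j
    exact perm_LB1 al s a N h i j

end PerM

open PerM in
/-- (Per) Permutation of the alphabets. -/
theorem per (K : Type) [Field K] (al : K) : PerSt K al := by
  intro s a b c F W hS
  refine ⟨fun n i => ?_, fun n i j h => ?_, fun n i j h => ?_, fun N n h i j => ?_,
    fun m N n h => ?_⟩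
  · rw [hS.z1 n i]
    split_ifs
    · rfl
    · exact map_zero _
  · rw [hS.s1 n i j h, map_zero]
  · rw [hS.s2 n i j h, map_zero]
  · rw [perm_LB1 al s b N (W n) i j, perm_LB2 al s c N (W n) i j, hS.L N n h i j]
  · have h1 : (fun j => dB al (s a) (j + 1) (perm K s (F (n + 1)))) =
        fun j => perm K s (dB al a (j + 1) (F (n + 1))) := by
      funext j
      exact perm_dB al s a (j + 1) (F (n + 1))
    rw [h1, perm_LBm al s a N m (fun j => dB al a (j + 1) (F (n + 1)))]
    change perm K s ((LB al a N)^[m] (fun j => dB al a (j + 1) (F (n + 1))) 0) = _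
    rw [hS.E m N n h, map_sum]
    refine Finset.sum_congr rfl fun i _ => ?_
    rw [map_sum]
    refine Finset.sum_congr rfl fun j _ => ?_
    rw [map_mul, map_mul, perm_X, perm_X, perm_LB1m al s b N m (W n)]

end

end Pool.Agent.MJI
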