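import Pool.Agent.MJI.St
import Pool.Agent.MJR.SymM
import Pool.Agent.MJR.ExtrM
import Pool.Agent.MJR.PhiM
import Pool.Agent.MJR.Fin

/-!
The levels of `phi`.
-/

namespace Pool.Agent.MJI

open MvPolynomial Pool.Agent.MJR Pool.Agent.MJR.GradeM Pool.Agent.MJT

noncomputable section

namespace Phim

variable {K : Type} [Field K]

theorem em_X (a : Fin 3) (k : ℕ) : em K a (X k) = X (a, k) := by
  unfold em
  rw [rename_X]

theorem em_pp (a : Fin 3) {n : ℕ} (r : n.Partition) : em K a (pp K r) = pa a r := by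
  unfold pp pa
  rw [map_multiset_prod, Multiset.map_map]
  congr 1
  refine Multiset.map_congr rfl fun k _ => ?_
  exact em_X a k

theorem em_smul (a : Fin 3) (c : K) (f : Lam K) : em K a (c • f) = C c * em K a f := by
  rw [map_smul, smul_eq_C_mul]

theorem Qt_pp (al : K) {n : ℕ} (J : n.Partition → n.Partition → K) (t r : n.Partition) :
    Qt al J t (pp K r) = ∑ m, cc al J r m t • pp K m := by
  classical
  unfold Qt
  rw [LinearMap.sum_apply, Finset.sum_eq_single r]
  · rw [LinearMap.sum_apply]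
    refine Finset.sum_congr rfl fun m _ => ?_
    rw [LinearMap.comp_apply, LinearMap.toSpanSingleton_apply, lcoeff_apply, coeff_pp, if_pos rfl,
      one_smul]
  · intro p _ hp
    rw [LinearMap.sum_apply]
    refine Finset.sum_eq_zero fun m _ => ?_
    rw [LinearMap.comp_apply, LinearMap.toSpanSingleton_apply, lcoeff_apply, coeff_pp,
      if_neg (Ne.symm hp), zero_smul]
  · intro h
    exact absurd (Finset.mem_univ r) h

theorem prod_Ja {n : ℕ} (J : n.Partition → n.Partition → K) (l : n.Partition) :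
    Ja J l 0 * Ja J l 1 * Ja J l 2 = ∑ t : n.Partition, ∑ r : n.Partition, ∑ m : n.Partition,
      C (J l r * J l m * J l t) * (pa 0 t * pa 1 m * pa 2 r) := by
  unfold Ja
  rw [mul_assoc, Finset.sum_mul]
  refine Finset.sum_congr rfl fun t _ => ?_
  rw [mul_comm (∑ r, C (J l r) * pa 1 r), Finset.sum_mul, Finset.mul_sum]
  refine Finset.sum_congr rfl fun r _ => ?_
  rw [Finset.mul_sum, Finset.mul_sum]
  refine Finset.sum_congr rfl fun m _ => ?_
  simp only [C_mul]
  ring

theorem ker (al : K) {n : ℕ} (J : (n : ℕ) → n.Partition → n.Partition → K)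
    (hw : ∀ r : n.Partition, wtp al r ≠ 0) :
    PowerSeries.coeff n (phi al J) =
      ∑ t : n.Partition, em K 0 (pp K t) * kerL al n (Qt al (J n) t) 1 2 := by
  unfold phi
  rw [PowerSeries.coeff_mk]
  have h1 : ∀ l : n.Partition, C (nrm al (J n) l)⁻¹ *
      (Ja (J n) l 0 * Ja (J n) l 1 * Ja (J n) l 2) = ∑ t : n.Partition, ∑ r : n.Partition,
      ∑ m : n.Partition, C ((nrm al (J n) l)⁻¹ * (J n l r * J n l m * J n l t)) *
        (pa 0 t * pa 1 m * pa 2 r) := by
    intro l
    rw [prod_Ja]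
    simp only [Finset.mul_sum]
    refine Finset.sum_congr rfl fun t _ => Finset.sum_congr rfl fun r _ =>
      Finset.sum_congr rfl fun m _ => ?_
    rw [← mul_assoc, ← C_mul]
  rw [Finset.sum_congr rfl fun l _ => h1 l, Finset.sum_comm]
  refine Finset.sum_congr rfl fun t _ => ?_
  rw [Finset.sum_comm]
  unfold kerL
  rw [Finset.mul_sum]
  refine Finset.sum_congr rfl fun r _ => ?_
  rw [Finset.sum_comm, em_pp, em_pp, Qt_pp, map_sum, Finset.mul_sum, Finset.sum_mul,
    Finset.mul_sum]
  refine Finset.sum_congr rfl fun m _ => ?_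
  rw [← Finset.sum_mul, ← map_sum, em_smul, em_pp]
  have h2 : cc al (J n) r m t = wtp al r *
      ∑ l, (nrm al (J n) l)⁻¹ * (J n l r * J n l m * J n l t) := rfl
  have h3 : (C (∑ l, (nrm al (J n) l)⁻¹ * (J n l r * J n l m * J n l t)) : B3 K) =
      C (wtp al r)⁻¹ * C (cc al (J n) r m t) := by
    rw [← C_mul, h2, ← mul_assoc, inv_mul_cancel₀ (hw r), one_mul]
  rw [h3]
  ring

/-- A derivation on products of variables. -/
theorem D_prod_zero (D : Derivation K (B3 K) (B3 K)) (a : Fin 3) (s : Multiset ℕ)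
    (h : ∀ i ∈ s, D (X (a, i)) = 0) : D (s.map fun k => (X (a, k) : B3 K)).prod = 0 := by
  induction s using Multiset.induction_on with
  | empty =>
    rw [Multiset.map_zero, Multiset.prod_zero, Derivation.map_one_eq_zero]
  | cons i s ih =>
    rw [Multiset.map_cons, Multiset.prod_cons, Derivation.leibniz,
      h i (Multiset.mem_cons_self i s), ih fun j hj => h j (Multiset.mem_cons_of_mem hj),
      smul_zero, smul_zero, add_zero]

theorem D_Ja_zero (D : Derivation K (B3 K) (B3 K)) (a : Fin 3) {n : ℕ}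
    (J : n.Partition → n.Partition → K) (l : n.Partition)
    (h : ∀ i, i ≤ n → D (X (a, i)) = 0) : D (Ja J l a) = 0 := by
  unfold Ja
  rw [map_sum]
  refine Finset.sum_eq_zero fun r _ => ?_
  have h1 : D (pa a r) = 0 := by
    unfold pa
    refine D_prod_zero D a r.parts fun i hi => h i ?_
    have h2 := Multiset.le_sum_of_mem hi
    rw [r.parts_sum] at h2
    exact h2
  rw [← smul_eq_C_mul, Derivation.map_smul, h1, smul_zero]

theorem dB_X (al : K) (a a' : Fin 3) (k i : ℕ) (h : (a, k) ≠ (a', i)) :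
    dB al a k (X (a', i)) = 0 := by
  unfold dB
  rw [Derivation.smul_apply, pderiv_X_of_ne h.symm, smul_zero]

theorem dB_X_self (al : K) (a : Fin 3) (k : ℕ) : dB al a k (X (a, k)) = C (al * (k : K)) := by
  unfold dB
  rw [Derivation.smul_apply, pderiv_X_self, smul_eq_C_mul, mul_one]

theorem sup (al : K) (J : (n : ℕ) → n.Partition → n.Partition → K) (a : Fin 3) (k n : ℕ)
    (hk : n < k) : dB al a k (PowerSeries.coeff n (phi al J)) = 0 := by
  unfold phi
  rw [PowerSeries.coeff_mk, map_sum]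
  refine Finset.sum_eq_zero fun l _ => ?_
  have h1 : ∀ a' : Fin 3, dB al a k (Ja (J n) l a') = 0 := by
    intro a'
    refine D_Ja_zero _ a' (J n) l fun i hi => dB_X al a a' k i ?_
    intro h
    have h2 := congrArg Prod.snd h
    change k = i at h2
    omega
  rw [← smul_eq_C_mul, Derivation.map_smul, Derivation.leibniz, Derivation.leibniz, h1, h1, h1]
  simp

/-- the Euler operator of the first alphabet -/
def Eu (al : K) (n : ℕ) : Derivation K (B3 K) (B3 K) :=
  ∑ k ∈ Finset.Icc 1 n, (X (0, k) : B3 K) • dB al 0 k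

theorem Eu_apply (al : K) (n : ℕ) (f : B3 K) :
    Eu al n f = ∑ k ∈ Finset.Icc 1 n, X (0, k) * dB al 0 k f := by
  unfold Eu
  rw [← Derivation.coeFnAddMonoidHom_apply, map_sum, Finset.sum_apply]
  rfl

theorem Eu_X0 (al : K) (n i : ℕ) (h1 : 1 ≤ i) (h2 : i ≤ n) :
    Eu al n (X (0, i)) = C (al * (i : K)) * X (0, i) := by
  rw [Eu_apply, Finset.sum_eq_single i]
  · rw [dB_X_self, mul_comm]
  · intro k _ hk
    rw [dB_X, mul_zero]
    intro h
    exact hk (congrArg Prod.snd h)
  · intro h
    exact absurd (Finset.mem_Icc.mpr ⟨h1, h2⟩) h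

theorem Eu_X (al : K) (n i : ℕ) (a : Fin 3) (ha : a ≠ 0) : Eu al n (X (a, i)) = 0 := by
  rw [Eu_apply]
  refine Finset.sum_eq_zero fun k _ => ?_
  rw [dB_X, mul_zero]
  intro h
  exact ha (congrArg Prod.fst h).symm

theorem Eu_prod (al : K) (n : ℕ) (s : Multiset ℕ) (h : ∀ i ∈ s, 1 ≤ i ∧ i ≤ n) :
    Eu al n (s.map fun k => (X (0, k) : B3 K)).prod =
      C (al * (s.sum : K)) * (s.map fun k => (X (0, k) : B3 K)).prod := by
  induction s using Multiset.induction_on with
  | empty =>
    rw [Multiset.map_zero, Multiset.prod_zero, Derivation.map_one_eq_zero, Multiset.sum_zero,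
      Nat.cast_zero, mul_zero, C_0, zero_mul]
  | cons i s ih =>
    have hi := h i (Multiset.mem_cons_self i s)
    rw [Multiset.map_cons, Multiset.prod_cons, Derivation.leibniz, Eu_X0 al n i hi.1 hi.2,
      ih fun j hj => h j (Multiset.mem_cons_of_mem hj), Multiset.sum_cons, Nat.cast_add, mul_add,
      C_add]
    simp only [smul_eq_mul]
    ring

theorem Eu_Ja (al : K) {n : ℕ} (J : n.Partition → n.Partition → K) (l : n.Partition) :
    Eu al n (Ja J l 0) = C (al * (n : K)) * Ja J l 0 := by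
  unfold Ja
  rw [map_sum, Finset.mul_sum]
  refine Finset.sum_congr rfl fun r _ => ?_
  have h1 : Eu al n (pa 0 r) = C (al * (n : K)) * pa 0 r := by
    unfold pa
    rw [Eu_prod, r.parts_sum]
    intro i hi
    refine ⟨r.parts_pos hi, ?_⟩
    have h2 := Multiset.le_sum_of_mem hi
    rw [r.parts_sum] at h2
    exact h2
  rw [← smul_eq_C_mul, Derivation.map_smul, h1, smul_eq_C_mul, smul_eq_C_mul]
  ring

theorem eul (al : K) (J : (n : ℕ) → n.Partition → n.Partition → K) (n : ℕ) :
    ∑ k ∈ Finset.Icc 1 n, X (0, k) * dB al 0 k (PowerSeries.coeff n (phi al J)) =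
      C (al * (n : K)) * PowerSeries.coeff n (phi al J) := by
  rw [← Eu_apply]
  unfold phi
  rw [PowerSeries.coeff_mk, map_sum, Finset.mul_sum]
  refine Finset.sum_congr rfl fun l _ => ?_
  have h1 : Eu al n (Ja (J n) l 1) = 0 :=
    D_Ja_zero _ 1 (J n) l fun i _ => Eu_X al n i 1 (by decide)
  have h2 : Eu al n (Ja (J n) l 2) = 0 :=
    D_Ja_zero _ 2 (J n) l fun i _ => Eu_X al n i 2 (by decide)
  rw [← smul_eq_C_mul, Derivation.map_smul, Derivation.leibniz, Derivation.leibniz, h1, h2,
    Eu_Ja]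
  simp only [smul_eq_mul, smul_eq_C_mul, mul_zero, zero_add]
  ring

end Phim

open Phim in
/-- The levels of `phi`. -/
theorem phim : PhiSt where
  ker := fun J hJ n => ker _ J fun r => wtp_ne_zero' anisoM (hJ n) r
  one := fun J hJ => ExtrM.phi_zero J hJ
  sup := fun J a k n hk => sup _ J a k n hk
  per := by
    intro J s n
    have h := SymM.map_phi (RatFunc.X : QA) J s
    have h1 := congrArg (PowerSeries.coeff n) h
    rw [PowerSeries.coeff_map] at h1
    exact h1
  eul := fun J n => eul _ J n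

end

end Pool.Agent.MJI
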