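import Pool.Agent.MJI.St
import Pool.Agent.MJT.Jack
import Pool.Agent.MJT.Star

/-!
Integrality of the coefficients `h` of `psi`: the class operators.
-/

namespace Pool.Agent.MJI

open MvPolynomial Pool.Agent.MJR Pool.Agent.MJR.GradeM Pool.Agent.MJR.IdentM Pool.Agent.MJT

noncomputable section

namespace QtM

/-- Two operators which agree on the power sums agree on the elements of weight `n`. -/
theorem ext_S {K : Type} [Field K] {n : ℕ} (A B : Lam K →ₗ[K] Lam K)
    (h : ∀ p : n.Partition, A (pp K p) = B (pp K p)) : ∀ f ∈ S K n, A f = B f := by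
  intro f hf
  obtain ⟨v, rfl⟩ := exists_toL hf
  unfold toL
  rw [map_sum, map_sum]
  refine Finset.sum_congr rfl fun p _ => ?_
  rw [← smul_eq_C_mul, map_smul, map_smul, h]

theorem toL_smul_pp {K : Type} [Field K] {n : ℕ} (v : n.Partition → K) :
    toL v = ∑ m, v m • pp K m := by
  unfold toL
  refine Finset.sum_congr rfl fun m _ => ?_
  rw [smul_eq_C_mul]

theorem app (al : QA) {n : ℕ} (J : n.Partition → n.Partition → QA) (t : n.Partition)
    (f : Lam QA) : Qt al J t f =
      ∑ p, ∑ m, (coeff (expo p) f * cc al J p m t) • pp QA m := by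
  unfold Qt
  rw [LinearMap.sum_apply]
  refine Finset.sum_congr rfl fun p _ => ?_
  rw [LinearMap.sum_apply]
  refine Finset.sum_congr rfl fun m _ => ?_
  rw [LinearMap.comp_apply, LinearMap.toSpanSingleton_apply, smul_smul]
  rfl

theorem pp_S {n : ℕ} (p : n.Partition) : pp QA p ∈ S QA n := by
  obtain ⟨v, hv⟩ := pp_eq_toL (K := QA) p
  rw [hv]
  exact toL_mem v

theorem ppo (al : QA) {n : ℕ} (J : n.Partition → n.Partition → QA) (t p : n.Partition) :
    Qt al J t (pp QA p) = ∑ m, cc al J p m t • pp QA m := by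
  classical
  rw [app, Finset.sum_eq_single p]
  · refine Finset.sum_congr rfl fun m _ => ?_
    rw [coeff_pp, if_pos rfl, one_mul]
  · intro q _ hq
    refine Finset.sum_eq_zero fun m _ => ?_
    rw [coeff_pp, if_neg (Ne.symm hq), zero_mul, zero_smul]
  · intro h
    exact absurd (Finset.mem_univ p) h

theorem hcc {n : ℕ} {J : n.Partition → n.Partition → QA} (hJ : IsJack RatFunc.X n J)
    (l m v : n.Partition) : ∑ p, J l p * cc RatFunc.X J p m v = J l m * J l v := by
  unfold cc
  have h3 : ∀ q, J l q * (wtp RatFunc.X q *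
      ∑ l', (nrm RatFunc.X J l')⁻¹ * (J l' q * J l' m * J l' v)) =
      ∑ l', (nrm RatFunc.X J l')⁻¹ * (J l' m * J l' v) * (J l q * J l' q * wtp RatFunc.X q) := by
    intro q
    rw [Finset.mul_sum, Finset.mul_sum]
    refine Finset.sum_congr rfl fun l' _ => ?_
    ring
  rw [Finset.sum_congr rfl (fun q _ => h3 q), Finset.sum_comm]
  rw [Finset.sum_eq_single l]
  · rw [← Finset.mul_sum]
    have h4 : ∑ q, J l q * J l q * wtp RatFunc.X q = nrm RatFunc.X J l := by
      unfold nrm
      refine Finset.sum_congr rfl fun q _ => ?_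
      ring
    have h5 := nrm_ne_zero anisoM hJ l
    rw [h4]
    field_simp
  · intro l' _ hl'
    rw [← Finset.mul_sum, hJ.orth l l' (Ne.symm hl'), mul_zero]
  · intro h'
    exact absurd (Finset.mem_univ _) h'

theorem cc_ones {n : ℕ} {J : n.Partition → n.Partition → QA} (hJ : IsJack RatFunc.X n J)
    [DecidableEq n.Partition] (p t : n.Partition) :
    cc RatFunc.X J p (ones n) t = if p = t then 1 else 0 := by
  rw [← dualOrth' anisoM hJ p t]
  unfold cc
  rw [Finset.mul_sum]
  refine Finset.sum_congr rfl fun l _ => ?_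
  rw [J_ones hJ]
  ring

theorem cc_symm {n : ℕ} (J : n.Partition → n.Partition → QA) (p m t : n.Partition) :
    cc RatFunc.X J p m t * wtp RatFunc.X m = cc RatFunc.X J m p t * wtp RatFunc.X p := by
  unfold cc
  have e : ∑ l, (nrm RatFunc.X J l)⁻¹ * (J l p * J l m * J l t) =
      ∑ l, (nrm RatFunc.X J l)⁻¹ * (J l m * J l p * J l t) := by
    refine Finset.sum_congr rfl fun l _ => ?_
    ring
  rw [e]
  ring

theorem onJ {n : ℕ} {J : n.Partition → n.Partition → QA} (hJ : IsJack RatFunc.X n J)
    (t l : n.Partition) : Qt RatFunc.X J t (toL (J l)) = J l t • toL (J l) := by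
  have h : J l t • toL (J l) = ∑ m, (J l m * J l t) • pp QA m := by
    rw [toL_smul_pp, Finset.smul_sum]
    refine Finset.sum_congr rfl fun m _ => ?_
    rw [smul_smul, mul_comm]
  rw [h, app, Finset.sum_comm]
  refine Finset.sum_congr rfl fun m _ => ?_
  rw [← hcc hJ l m t, Finset.sum_smul]
  refine Finset.sum_congr rfl fun p _ => ?_
  rw [coeff_toL]

theorem H_Qt {n : ℕ} {J : n.Partition → n.Partition → QA} (hJ : IsJack RatFunc.X n J)
    (t : n.Partition) (r : ℕ) : ∀ f ∈ S QA n,
    Qt RatFunc.X J t (H RatFunc.X r f) = H RatFunc.X r (Qt RatFunc.X J t f) := by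
  have h := ext_S (n := n) (Qt RatFunc.X J t ∘ₗ H RatFunc.X r)
    (H RatFunc.X r ∘ₗ Qt RatFunc.X J t) ?_
  · exact h
  intro p
  rw [pp_eq_sum_toL anisoM hJ p, map_sum, map_sum]
  refine Finset.sum_congr rfl fun l _ => ?_
  rw [map_smul, map_smul]
  congr 1
  obtain ⟨k, hk⟩ := J_eig hJ r l
  rw [LinearMap.comp_apply, LinearMap.comp_apply, hk, ← smul_eq_C_mul, map_smul, onJ hJ, map_smul,
    hk, ← smul_eq_C_mul, smul_smul, smul_smul, mul_comm]

end QtM

open QtM in
/-- (Qt) The class operators. -/
theorem qt {n : ℕ} {J : n.Partition → n.Partition → QA} (hJ : IsJack RatFunc.X n J) :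
    QtSt J := by
  classical
  have hB : ∀ (m : n.Partition) (g : Lam QA),
      FormM.B RatFunc.X (pp QA m) g = wtp RatFunc.X m * coeff (expo m) g := by
    intro m g
    rw [pp_eq_monomial, FormM.B_monomial, FormM.W_expo]
  have hmem : ∀ (t : n.Partition) (f : Lam QA), Qt RatFunc.X J t f ∈ S QA n := by
    intro t f
    rw [app]
    exact Submodule.sum_mem _ fun p _ => Submodule.sum_mem _ fun m _ =>
      Submodule.smul_mem _ _ (pp_S m)
  have hQB : ∀ (t : n.Partition) (f g : Lam QA), FormM.B RatFunc.X (Qt RatFunc.X J t f) g =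
      ∑ p, ∑ m, coeff (expo p) f * (cc RatFunc.X J p m t * wtp RatFunc.X m) *
        coeff (expo m) g := by
    intro t f g
    rw [app, map_sum, LinearMap.sum_apply]
    refine Finset.sum_congr rfl fun p _ => ?_
    rw [map_sum, LinearMap.sum_apply]
    refine Finset.sum_congr rfl fun m _ => ?_
    rw [map_smul, LinearMap.smul_apply, hB, smul_eq_mul]
    ring
  refine ⟨app RatFunc.X J, ppo RatFunc.X J, hmem, ?_, ?_, ?_, ?_⟩
  · intro t f _ g _
    rw [FormM.B_symm RatFunc.X f, hQB, hQB, Finset.sum_comm]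
    refine Finset.sum_congr rfl fun m _ => Finset.sum_congr rfl fun p _ => ?_
    rw [cc_symm]
    ring
  · intro t k f hf
    exact comm_Mo_of_H RatFunc.X (Qt RatFunc.X J t) (H_Qt hJ t) k f hf
  · intro t f _
    rw [app, coeff_sum]
    have h1 : ∀ p : n.Partition, coeff (expo (ones n))
        (∑ m, (coeff (expo p) f * cc RatFunc.X J p m t) • pp QA m) =
        if p = t then coeff (expo t) f else 0 := by
      intro p
      rw [coeff_sum, Finset.sum_eq_single (ones n)]
      · rw [coeff_smul, coeff_pp, if_pos rfl, cc_ones hJ p t, smul_eq_mul, mul_one]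
        by_cases h : p = t
        · subst h
          rw [if_pos rfl, if_pos rfl, mul_one]
        · rw [if_neg h, if_neg h, mul_zero]
      · intro m _ hm
        rw [coeff_smul, coeff_pp, if_neg hm, smul_zero]
      · intro h
        exact absurd (Finset.mem_univ _) h
    rw [Finset.sum_congr rfl fun p _ => h1 p, Finset.sum_ite_eq', if_pos (Finset.mem_univ t)]
  · intro O hO hH f hf
    have h := ext_S (n := n) O (∑ v : n.Partition, coeff (expo (ones n)) (O (pp QA v)) •
      Qt RatFunc.X J v) ?_ f hf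
    · rw [h, LinearMap.sum_apply]
      rfl
    intro p
    obtain ⟨w, hw⟩ := exists_toL (hO _ (pp_S p))
    have h1 : ∀ m, w m = ∑ v, coeff (expo (ones n)) (O (pp QA v)) * cc RatFunc.X J p m v := by
      intro m
      rw [← coeff_toL w m, ← hw]
      exact jackOp hJ (cc RatFunc.X J) (hcc hJ) O (fun r p => hH r _ (pp_S p))
        (fun p => hO _ (pp_S p)) p m
    rw [hw, LinearMap.sum_apply, toL_smul_pp]
    simp only [LinearMap.smul_apply, ppo, Finset.smul_sum, smul_smul]
    rw [Finset.sum_comm]
    refine Finset.sum_congr rfl fun m _ => ?_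
    rw [h1, Finset.sum_smul]

end

end Pool.Agent.MJI
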