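import Pool.Agent.MJI.Sysm
import Pool.Agent.MJI.Em
import Pool.Agent.MJI.Hat
import Pool.Agent.MJI.Int1
import Pool.Agent.MJI.KerA
import Pool.Agent.MJI.KerB
import Pool.Agent.MJI.KerC
import Pool.Agent.MJI.Key
import Pool.Agent.MJI.Main
import Pool.Agent.MJI.Per
import Pool.Agent.MJI.Phim
import Pool.Agent.MJI.Qtm

/-!
The modules put together.
-/

namespace Pool.Agent.MJI

open MvPolynomial Pool.Agent.MJR Pool.Agent.MJR.GradeM Pool.Agent.MJT

noncomputable section

theorem kerSt (K : Type) [Field K] [CharZero K] (al : K) (hal : al ≠ 0) : KerSt K al where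
  s1 := ker_s1 K al
  s2 := ker_s2 K al
  z1 := ker_z1 K al
  lb := ker_lb K al
  sym := ker_sym K al hal
  ee := ker_ee K al hal

theorem mainSt (K : Type) [Field K] (al : K) : MainSt K al := main K al (int1 K al) (int2 K al)

theorem sysSt : SysSt :=
  sysm (hat QA RatFunc.X RatFunc.X_ne_zero) (fun hJ => qt hJ) (key fun hJ => qt hJ)
    (emm QA RatFunc.X) (kerSt QA RatFunc.X RatFunc.X_ne_zero) phim

end

end Pool.Agent.MJI
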