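import Pool.Agent.MJI.Defs

/-!
Integrality of the coefficients `h` of `psi`: statements of the modules.
-/

namespace Pool.Agent.MJI

open MvPolynomial Pool.Agent.MJR Pool.Agent.MJR.GradeM Pool.Agent.MJT

noncomputable section

/-- (Int1) Integrality from `(L_b - L_c) h` and from `h` at `v = 0`. -/
def Int1St (K : Type) [Field K] (al : K) : Prop :=
  ∀ (G : Subring K), al ∈ G → ∀ (b c : Fin 3), b ≠ c → ∀ (N : ℕ) (h : ℕ → ℕ → B3 K),
    (∀ i j, N < i → h i j = 0) → (∀ i j, N < j → h i j = 0) →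
    (∀ i, h i 0 ∈ BI (σ := Fin 3 × ℕ) G) →
    (∀ i j, LB1 al b N h i j - LB2 al c N h i j ∈ BI (σ := Fin 3 × ℕ) G) →
    ∀ i j, h i j ∈ BI (σ := Fin 3 × ℕ) G

/-- (Int2) Integrality from the constant terms of the `L^m f`. -/
def Int2St (K : Type) [Field K] (al : K) : Prop :=
  ∀ (G : Subring K), al ∈ G → ∀ (a : Fin 3) (N : ℕ) (f : ℕ → B3 K),
    (∀ i, N < i → f i = 0) → (∀ m, ((LB al a N)^[m] f) 0 ∈ BI (σ := Fin 3 × ℕ) G) →
    ∀ i, f i ∈ BI (σ := Fin 3 × ℕ) G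

/-- (Main) The induction on the level. -/
def MainSt (K : Type) [Field K] (al : K) : Prop :=
  ∀ (G : Subring K), al ∈ G → ∀ (F : ℕ → B3 K), F 0 = 1 →
    (∀ a k n, n < k → dB al a k (F n) = 0) →
    (∀ a : Fin 3, ∃ b c : Fin 3, b ≠ c ∧ ∃ W, Sys al a b c F W) →
    ∀ (psi : Fin 3 → ℕ → ℕ → B3 K),
    (∀ a k n, dB al a k (F n) = ∑ x ∈ Finset.HasAntidiagonal.antidiagonal n, F x.1 * psi a k x.2) →
    ∀ a k n, psi a k n ∈ BI (σ := Fin 3 × ℕ) G

/-- (Hat) Existence of the extension. -/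
def HatSt (K : Type) [Field K] (al : K) : Prop :=
  ∀ (n : ℕ) (Q : Lam K →ₗ[K] Lam K), (∀ f ∈ S K n, Q f ∈ S K n) →
    (∀ f ∈ S K n, ∀ g ∈ S K n, FormM.B al (Q f) g = FormM.B al f (Q g)) →
    (∀ k, ∀ f ∈ S K n, Q (Mo al k f) = Mo al k (Q f)) → ∃ P, IsHat al n Q P

/-- (Qt) The class operators. -/
structure QtSt {n : ℕ} (J : n.Partition → n.Partition → QA) : Prop where
  app : ∀ (t : n.Partition) (f : Lam QA), Qt RatFunc.X J t f =
    ∑ p, ∑ m, (coeff (expo p) f * cc RatFunc.X J p m t) • pp QA m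
  ppo : ∀ t p : n.Partition, Qt RatFunc.X J t (pp QA p) = ∑ m, cc RatFunc.X J p m t • pp QA m
  mem : ∀ (t : n.Partition) (f : Lam QA), Qt RatFunc.X J t f ∈ S QA n
  sym : ∀ (t : n.Partition), ∀ f ∈ S QA n, ∀ g ∈ S QA n,
    FormM.B RatFunc.X (Qt RatFunc.X J t f) g = FormM.B RatFunc.X f (Qt RatFunc.X J t g)
  mo : ∀ (t : n.Partition) (k : ℕ), ∀ f ∈ S QA n,
    Qt RatFunc.X J t (Mo RatFunc.X k f) = Mo RatFunc.X k (Qt RatFunc.X J t f)
  one : ∀ (t : n.Partition), ∀ f ∈ S QA n,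
    coeff (expo (ones n)) (Qt RatFunc.X J t f) = coeff (expo t) f
  all : ∀ O : Lam QA →ₗ[QA] Lam QA, (∀ f ∈ S QA n, O f ∈ S QA n) →
    (∀ r, ∀ f ∈ S QA n, O (H RatFunc.X r f) = H RatFunc.X r (O f)) → ∀ f ∈ S QA n,
    O f = ∑ v : n.Partition, coeff (expo (ones n)) (O (pp QA v)) •
      Qt RatFunc.X J v f

/-- (Key) The identity between two consecutive levels. -/
def KeySt : Prop :=
  ∀ (J : (n : ℕ) → n.Partition → n.Partition → QA), (∀ n, IsJack RatFunc.X n (J n)) →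
    ∀ (n : ℕ) (t : n.Partition) (P : LW QA →ₗ[QA] LW QA),
    IsHat RatFunc.X n (Qt RatFunc.X (J n) t) P → ∀ (m : ℕ), ∀ f ∈ S QA (n + 1),
    Bx QA ((Zf RatFunc.X ^ m) (P (Bs RatFunc.X f))) =
      ∑ v : (n + 1).Partition,
        coeff (expo t) (i0 QA ((Zf RatFunc.X ^ m) (Bs RatFunc.X (pp QA v)))) •
          Qt RatFunc.X (J (n + 1)) v f

/-- (Em) `LB` on the elements of one alphabet: `f i * g`, with `g` in other alphabets. -/
def EmSt (K : Type) [Field K] (al : K) : Prop :=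
  ∀ (a : Fin 3) (N n m : ℕ) (G : LW K) (g : B3 K), n ≤ N → (∀ k, dB al a k g = 0) →
    G ∈ T K n → ∀ i, ((LB al a N)^[m] (fun i => em K a (G.coeff i) * g)) i =
      em K a (((Zf al ^ m) G).coeff i) * g

/-- (Ker) Kernels of operators. -/
structure KerSt (K : Type) [Field K] (al : K) : Prop where
  s1 : ∀ (n : ℕ) (A : LW K →ₗ[K] LW K), (∀ G ∈ T K n, A G ∈ T K n) → ∀ (b c : Fin 3) (i j : ℕ),
    n < i → kerW al n A b c i j = 0
  s2 : ∀ (n : ℕ) (A : LW K →ₗ[K] LW K) (b c : Fin 3) (i j : ℕ),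
    n < j → kerW al n A b c i j = 0
  z1 : ∀ (n : ℕ) (A : LW K →ₗ[K] LW K) (Q : Lam K →ₗ[K] Lam K),
    (∀ f ∈ S K n, A (Polynomial.C f) = Polynomial.C (Q f)) → ∀ (b c : Fin 3) (i : ℕ),
    kerW al n A b c i 0 = if i = 0 then kerL al n Q b c else 0
  /-- `L` in the first alphabet -/
  lb : ∀ (n N : ℕ) (A : LW K →ₗ[K] LW K), n ≤ N → (∀ G ∈ T K n, A G ∈ T K n) →
    ∀ (b c : Fin 3), b ≠ c → ∀ (i j : ℕ),
    LB1 al b N (kerW al n A b c) i j = kerW al n (Zf al ∘ₗ A) b c i j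
  /-- the kernel of a self-adjoint operator is symmetric -/
  sym : ∀ (n : ℕ) (A : LW K →ₗ[K] LW K), (∀ G ∈ T K n, A G ∈ T K n) →
    (∀ F ∈ T K n, ∀ G ∈ T K n, FormM.BW al (A F) G = FormM.BW al F (A G)) →
    ∀ (b c : Fin 3) (i j : ℕ), kerW al n A b c i j = kerW al n A c b j i
  /-- the product with `e_b e_c` -/
  ee : ∀ (n N : ℕ) (A : LW K →ₗ[K] LW K), n ≤ N → (∀ G ∈ T K n, A G ∈ T K n) →
    ∀ (b c : Fin 3), ∑ i ∈ Finset.range (N + 1), ∑ j ∈ Finset.range (N + 1),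
      X (b, i + 1) * X (c, j + 1) * kerW al n A b c i j =
        kerL al (n + 1) (Bx K ∘ₗ A ∘ₗ Bs al) b c

/-- (Phi) The levels of `phi`. -/
structure PhiSt : Prop where
  ker : ∀ (J : (n : ℕ) → n.Partition → n.Partition → QA), (∀ n, IsJack RatFunc.X n (J n)) →
    ∀ n, PowerSeries.coeff n (phi RatFunc.X J) =
      ∑ t : n.Partition, em QA 0 (pp QA t) * kerL RatFunc.X n (Qt RatFunc.X (J n) t) 1 2
  one : ∀ (J : (n : ℕ) → n.Partition → n.Partition → QA), (∀ n, IsJack RatFunc.X n (J n)) →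
    PowerSeries.coeff 0 (phi RatFunc.X J) = 1
  sup : ∀ (J : (n : ℕ) → n.Partition → n.Partition → QA) (a : Fin 3) (k n : ℕ), n < k →
    dB RatFunc.X a k (PowerSeries.coeff n (phi RatFunc.X J)) = 0
  per : ∀ (J : (n : ℕ) → n.Partition → n.Partition → QA) (s : Equiv.Perm (Fin 3)) (n : ℕ),
    perm QA s (PowerSeries.coeff n (phi RatFunc.X J)) = PowerSeries.coeff n (phi RatFunc.X J)
  eul : ∀ (J : (n : ℕ) → n.Partition → n.Partition → QA) (n : ℕ),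
    ∑ k ∈ Finset.Icc 1 n, X (0, k) * dB RatFunc.X 0 k (PowerSeries.coeff n (phi RatFunc.X J)) =
      C (RatFunc.X * (n : QA)) * PowerSeries.coeff n (phi RatFunc.X J)

/-- (Per) Permutation of the alphabets. -/
def PerSt (K : Type) [Field K] (al : K) : Prop :=
  ∀ (s : Equiv.Perm (Fin 3)) (a b c : Fin 3) (F : ℕ → B3 K) (W : ℕ → ℕ → ℕ → B3 K),
    Sys al a b c F W → Sys al (s a) (s b) (s c) (fun n => perm K s (F n))
      (fun n i j => perm K s (W n i j))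

/-- (Sys) The extension of `phi`. -/
def SysSt : Prop :=
  ∀ (J : (n : ℕ) → n.Partition → n.Partition → QA), (∀ n, IsJack RatFunc.X n (J n)) →
    ∃ W, Sys RatFunc.X 0 1 2 (fun n => PowerSeries.coeff n (phi RatFunc.X J)) W

/-- (Fin) All coefficients `h` are in `ℤ[b]`. -/
def FinSt : Prop :=
  ∀ (J : (n : ℕ) → n.Partition → n.Partition → QA), (∀ n, IsJack RatFunc.X n (J n)) →
    ∀ psi : PowerSeries (B3 QA), IsPsi RatFunc.X J psi → ∀ {n : ℕ} (t m v : n.Partition),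
    hc psi t m v ∈ Zb (RatFunc.X : QA)

end

end Pool.Agent.MJI
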