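import Pool.Agent.MJT.ExtB
import Pool.Agent.MJT.Proj
import Pool.Agent.MJR.GDefs

/-!
Integrality of the coefficients `h` of `psi`: definitions.

`B3 K` is the ring of polynomials in the power sums of three alphabets `a = 0, 1, 2`.
A sequence `f : ℕ → B3 K` stands for `∑ w^i f i`, a double sequence `h` for
`∑ w^i v^j h i j`, where `w` goes with an alphabet `b` and `v` with an alphabet `c`.
-/

namespace Pool.Agent.MJI

open MvPolynomial Pool.Agent.MJR Pool.Agent.MJR.GradeM Pool.Agent.MJT

noncomputable section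

variable {K : Type} [Field K]

/-- The derivation `al k ∂ / ∂ p_k` in the alphabet `a`. -/
def dB (al : K) (a : Fin 3) (k : ℕ) : Derivation K (B3 K) (B3 K) :=
  (al * (k : K)) • pderiv (a, k)

/-- The full Lax operator in the alphabet `a`, on sequences, cut at `N`. -/
def LB (al : K) (a : Fin 3) (N : ℕ) (f : ℕ → B3 K) (i : ℕ) : B3 K :=
  ∑ k ∈ Finset.Icc 1 N, X (a, k) * f (i + k) + ∑ k ∈ Finset.Icc 1 i, dB al a k (f (i - k)) +
    C ((al - 1) * (i : K)) * f i

/-- The operator `LB` on the first index. -/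
def LB1 (al : K) (a : Fin 3) (N : ℕ) (h : ℕ → ℕ → B3 K) (i j : ℕ) : B3 K :=
  LB al a N (fun i' => h i' j) i

/-- The operator `LB` on the second index. -/
def LB2 (al : K) (a : Fin 3) (N : ℕ) (h : ℕ → ℕ → B3 K) (i j : ℕ) : B3 K :=
  LB al a N (fun j' => h i j') j

/-- Polynomials with coefficients in `G`. -/
def BI {σ : Type} (G : Subring K) : Subring (MvPolynomial σ K) where
  carrier := {f | ∀ e, coeff e f ∈ G}
  mul_mem' := by
    classical
    intro f g hf hg m
    rw [coeff_mul]
    exact sum_mem fun x _ => mul_mem (hf _) (hg _)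
  one_mem' := by
    classical
    intro m
    rw [coeff_one]
    split_ifs
    · exact one_mem _
    · exact zero_mem _
  add_mem' := by
    intro f g hf hg m
    rw [coeff_add]
    exact add_mem (hf _) (hg _)
  zero_mem' := by
    intro m
    rw [coeff_zero]
    exact zero_mem _
  neg_mem' := by
    intro f hf m
    rw [coeff_neg]
    exact neg_mem (hf _)

/-- `F n` is the level `n` of a series in three alphabets, `W n` the level `n` of its extension
by `w` (with the alphabet `b`) and `v` (with the alphabet `c`). -/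
structure Sys (al : K) (a b c : Fin 3) (F : ℕ → B3 K) (W : ℕ → ℕ → ℕ → B3 K) : Prop where
  z1 : ∀ n i, W n i 0 = if i = 0 then F n else 0
  s1 : ∀ n i j, n < i → W n i j = 0
  s2 : ∀ n i j, n < j → W n i j = 0
  L : ∀ N n, n ≤ N → ∀ i j, LB1 al b N (W n) i j = LB2 al c N (W n) i j
  E : ∀ m N n, n ≤ N → ((LB al a N)^[m] (fun j => dB al a (j + 1) (F (n + 1)))) 0 =
    ∑ i ∈ Finset.range (N + 1), ∑ j ∈ Finset.range (N + 1),
      X (b, i + 1) * X (c, j + 1) * ((LB1 al b N)^[m] (W n)) i j

/-- `P` extends `Q` in weight `n` and commutes with the full Lax operator. -/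
structure IsHat (al : K) (n : ℕ) (Q : Lam K →ₗ[K] Lam K) (P : LW K →ₗ[K] LW K) : Prop where
  z : ∀ G ∈ T K n, P (Zf al G) = Zf al (P G)
  c : ∀ f ∈ S K n, P (Polynomial.C f) = Polynomial.C (Q f)
  t : ∀ G ∈ T K n, P G ∈ T K n
  i : ∀ G ∈ T K n, i0 K (P G) = Q (i0 K G)
  s : ∀ F ∈ T K n, ∀ G ∈ T K n, FormM.BW al (P F) G = FormM.BW al F (P G)

/-- The coefficients `c`. -/
def cc (al : K) {n : ℕ} (J : n.Partition → n.Partition → K) (p m v : n.Partition) : K :=
  wtp al p * ∑ l, (nrm al J l)⁻¹ * (J l p * J l m * J l v)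

/-- The class operators in weight `n`: `p_p ↦ ∑ m, c p m t p_m`. -/
def Qt (al : K) {n : ℕ} (J : n.Partition → n.Partition → K) (t : n.Partition) :
    Lam K →ₗ[K] Lam K :=
  ∑ p : n.Partition, ∑ m : n.Partition,
    (LinearMap.toSpanSingleton K (Lam K) (cc al J p m t • pp K m)) ∘ₗ lcoeff K (expo p)

/-- `Lam` as the symmetric functions in the alphabet `a`. -/
def em (K : Type) [Field K] (a : Fin 3) : Lam K →ₐ[K] B3 K := rename fun k : ℕ => (a, k)

/-- The kernel in weight `n` of an operator on `Lam`. -/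
def kerL (al : K) (n : ℕ) (O : Lam K →ₗ[K] Lam K) (b c : Fin 3) : B3 K :=
  ∑ r : n.Partition, C (wtp al r)⁻¹ * em K b (O (pp K r)) * em K c (pp K r)

/-- The kernel in weight `n` of an operator on `Lam[w]`. -/
def kerW (al : K) (n : ℕ) (A : LW K →ₗ[K] LW K) (b c : Fin 3) (i j : ℕ) : B3 K :=
  if j ≤ n then ∑ r : (n - j).Partition,
    C (wtp al r)⁻¹ * em K b ((A (Polynomial.monomial j (pp K r))).coeff i) * em K c (pp K r)
  else 0

/-- The permutation `s` of the alphabets. -/
def perm (K : Type) [Field K] (s : Equiv.Perm (Fin 3)) : B3 K →ₐ[K] B3 K :=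
  rename fun x : Fin 3 × ℕ => (s x.1, x.2)

/-- `ℤ[b]`, `b = al - 1`. -/
def Zb (al : K) : Subring K :=
  (Polynomial.eval₂RingHom (Int.castRingHom K) (al - 1)).range

end

end Pool.Agent.MJI
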