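import Pool.Agent.MJI.Main

/-!
All coefficients `h` are in `ℤ[b]`.
-/

namespace Pool.Agent.MJI

open MvPolynomial Pool.Agent.MJR Pool.Agent.MJR.GradeM Pool.Agent.MJT

noncomputable section

theorem al_mem_Zb {K : Type} [Field K] (al : K) : al ∈ Zb al := by
  refine ⟨Polynomial.X + 1, ?_⟩
  rw [map_add, map_one]
  change Polynomial.eval₂ (Int.castRingHom K) (al - 1) Polynomial.X + 1 = al
  rw [Polynomial.eval₂_X]
  ring

open MainM in
/-- (Fin) All coefficients `h` are in `ℤ[b]`. -/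
theorem fin (hM : MainSt QA RatFunc.X) (hS : SysSt) (hPer : PerSt QA RatFunc.X) (hP : PhiSt) :
    FinSt := by
  classical
  intro J hJ psi hpsi n t m v
  set Φ : PowerSeries (B3 QA) := phi RatFunc.X J with hΦ
  have hΦ0 : PowerSeries.coeff 0 Φ = 1 := hP.one J hJ
  have h0 : PowerSeries.constantCoeff Φ = ((1 : (B3 QA)ˣ) : B3 QA) := by
    rw [← PowerSeries.coeff_zero_eq_constantCoeff_apply, hΦ0, Units.val_one]
  have hinv := PowerSeries.mul_invOfUnit Φ 1 h0
  set s : Fin 3 → ℕ → PowerSeries (B3 QA) := fun a k =>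
    PowerSeries.invOfUnit Φ 1 * dP RatFunc.X a k Φ with hs
  have hds : ∀ a k, Φ * s a k = dP RatFunc.X a k Φ := by
    intro a k
    rw [hs]
    beta_reduce
    rw [← mul_assoc, hinv, one_mul]
  obtain ⟨W, hW⟩ := hS J hJ
  have hper : ∀ (σ : Equiv.Perm (Fin 3)), (fun n => perm QA σ (PowerSeries.coeff n Φ)) =
      fun n => PowerSeries.coeff n Φ := by
    intro σ
    funext n
    exact hP.per J σ n
  have hsys : ∀ a : Fin 3, ∃ b c : Fin 3, b ≠ c ∧ ∃ W,
      Sys RatFunc.X a b c (fun n => PowerSeries.coeff n Φ) W := by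
    intro a
    have h := hPer (Equiv.swap 0 a) 0 1 2 _ W hW
    rw [hper, Equiv.swap_apply_left] at h
    exact ⟨_, _, (Equiv.swap 0 a).injective.ne (by decide), _, h⟩
  have hint : ∀ a k n, PowerSeries.coeff n (s a k) ∈ BI (σ := Fin 3 × ℕ) (Zb RatFunc.X) := by
    refine hM (Zb RatFunc.X) (al_mem_Zb _) (fun n => PowerSeries.coeff n Φ) hΦ0
      (fun a k n hn => hP.sup J a k n hn) hsys (fun a k n => PowerSeries.coeff n (s a k)) ?_
    intro a k n
    rw [← coeff_dP, ← hds, PowerSeries.coeff_mul]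
  have hzero : ∀ k l, l < k → PowerSeries.coeff l (s 0 k) = 0 := by
    intro k l hlk
    have h3 : ∀ m, m ≤ l → PowerSeries.coeff m (Φ * s 0 k) = PowerSeries.coeff m (Φ * 0) := by
      intro m hm
      rw [hds, coeff_dP, mul_zero, map_zero]
      exact hP.sup J 0 k m (by omega)
    have h4 := coeff_eq_of_mul hΦ0 h3 le_rfl
    rw [map_zero] at h4
    exact h4
  set psi' : PowerSeries (B3 QA) := PowerSeries.mk fun n =>
    ∑ k ∈ Finset.Icc 1 n, X (0, k) * PowerSeries.coeff n (s 0 k) with hpsi'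
  have hmul : ∀ n, PowerSeries.coeff n (Φ * psi') =
      C (RatFunc.X * (n : QA)) * PowerSeries.coeff n Φ := by
    intro n
    rw [← hP.eul J n, PowerSeries.coeff_mul]
    have e1 : ∀ x ∈ Finset.HasAntidiagonal.antidiagonal n,
        PowerSeries.coeff x.1 Φ * PowerSeries.coeff x.2 psi' =
          ∑ k ∈ Finset.Icc 1 n, X (0, k) *
            (PowerSeries.coeff x.1 Φ * PowerSeries.coeff x.2 (s 0 k)) := by
      intro x hx
      rw [Finset.HasAntidiagonal.mem_antidiagonal] at hx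
      rw [hpsi', PowerSeries.coeff_mk, Finset.mul_sum]
      have e2 : ∑ k ∈ Finset.Icc 1 x.2, X (0, k) *
            (PowerSeries.coeff x.1 Φ * PowerSeries.coeff x.2 (s 0 k)) =
          ∑ k ∈ Finset.Icc 1 n, X (0, k) *
            (PowerSeries.coeff x.1 Φ * PowerSeries.coeff x.2 (s 0 k)) := by
        refine Finset.sum_subset (Finset.Icc_subset_Icc le_rfl (by omega)) ?_
        intro k hk hk2
        rw [Finset.mem_Icc] at hk hk2
        rw [hzero k x.2 (by omega), mul_zero, mul_zero]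
      rw [← e2]
      exact Finset.sum_congr rfl fun k _ => mul_left_comm _ _ _
    rw [Finset.sum_congr rfl e1, Finset.sum_comm]
    refine Finset.sum_congr rfl fun k _ => ?_
    rw [← Finset.mul_sum, ← PowerSeries.coeff_mul, hds, coeff_dP]
  have heq : PowerSeries.coeff n psi = PowerSeries.coeff n psi' := by
    refine coeff_eq_of_mul hΦ0 (N := n) (fun l _ => ?_) le_rfl
    rw [hmul, mul_comm]
    exact hpsi l
  unfold hc
  rw [heq, hpsi', PowerSeries.coeff_mk]
  have hmem : ∑ k ∈ Finset.Icc 1 n, X (0, k) * PowerSeries.coeff n (s 0 k) ∈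
      BI (σ := Fin 3 × ℕ) (Zb (RatFunc.X : QA)) :=
    sum_mem fun k _ => mul_mem (Int2M.X_mem _ _) (hint 0 k n)
  exact hmem _

end

end Pool.Agent.MJI
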