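import Pool.Agent.MJI.St

/-!
The extension of the series `phi` by the variables `w` and `v`.
-/

namespace Pool.Agent.MJI

open MvPolynomial Pool.Agent.MJR Pool.Agent.MJR.GradeM Pool.Agent.MJT

noncomputable section

namespace SysM

variable {K : Type} [Field K]

lemma dB_C (al : K) (a : Fin 3) (k : ℕ) (c : K) : dB al a k (C c : B3 K) = 0 := by
  have h := (dB al a k).map_algebraMap c
  rwa [algebraMap_eq] at h

lemma dB_em_ne (al : K) {a c : Fin 3} (h : a ≠ c) (k : ℕ) (f : Lam K) :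
    dB al a k (em K c f) = 0 := by
  induction f using MvPolynomial.induction_on with
  | C x =>
    have e : em K c (C x) = C x := by
      unfold em
      rw [rename_C]
    rw [e, dB_C]
  | add p q hp hq => rw [map_add, map_add, hp, hq, add_zero]
  | mul_X p i hp =>
    have e : em K c (X i) = X (c, i) := by
      unfold em
      rw [rename_X]
    have e2 : dB al a k (X (c, i) : B3 K) = 0 := by
      unfold dB
      rw [Derivation.smul_apply, pderiv_X, Pi.single_apply, if_neg, smul_zero]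
      intro h'
      exact h (congrArg Prod.fst h').symm
    rw [map_mul, e, Derivation.leibniz, e2, hp, smul_zero, smul_zero, add_zero]

lemma dB_em (al : K) (a : Fin 3) (k : ℕ) (f : Lam K) :
    dB al a k (em K a f) = em K a (C (al * k) * pderiv k f) := by
  unfold dB em
  rw [Derivation.smul_apply, map_mul, rename_C, smul_eq_C_mul]
  congr 1
  exact pderiv_rename (f := fun k : ℕ => (a, k)) (fun x y hxy => congrArg Prod.snd hxy) k f

lemma dB_kerL (al : K) (n : ℕ) (O : Lam K →ₗ[K] Lam K) {a b c : Fin 3} (hb : a ≠ b)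
    (hc : a ≠ c) (k : ℕ) : dB al a k (kerL al n O b c) = 0 := by
  unfold kerL
  rw [map_sum]
  refine Finset.sum_eq_zero fun r _ => ?_
  rw [Derivation.leibniz, Derivation.leibniz, dB_em_ne al hb, dB_em_ne al hc, dB_C]
  simp only [smul_zero, add_zero]

lemma LB_sum {ι : Type} (s : Finset ι) (al : K) (a : Fin 3) (N : ℕ) (g : ι → B3 K)
    (hg : ∀ t k, dB al a k (g t) = 0) (f : ι → ℕ → B3 K) (i : ℕ) :
    LB al a N (fun i => ∑ t ∈ s, g t * f t i) i = ∑ t ∈ s, g t * LB al a N (f t) i := by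
  unfold LB
  simp only [mul_add, Finset.mul_sum, Finset.sum_add_distrib, map_sum]
  congr 1
  · congr 1
    · rw [Finset.sum_comm]
      refine Finset.sum_congr rfl fun t _ => Finset.sum_congr rfl fun k _ => ?_
      ring
    · rw [Finset.sum_comm]
      refine Finset.sum_congr rfl fun t _ => Finset.sum_congr rfl fun k _ => ?_
      rw [Derivation.leibniz, hg, smul_zero, add_zero, smul_eq_mul]
  · refine Finset.sum_congr rfl fun t _ => ?_
    ring

lemma LBit_sum {ι : Type} (s : Finset ι) (al : K) (a : Fin 3) (N : ℕ) (g : ι → B3 K)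
    (hg : ∀ t k, dB al a k (g t) = 0) (m : ℕ) (f : ι → ℕ → B3 K) :
    (LB al a N)^[m] (fun i => ∑ t ∈ s, g t * f t i) =
      fun i => ∑ t ∈ s, g t * ((LB al a N)^[m] (f t)) i := by
  induction m generalizing f with
  | zero => rfl
  | succ m ih =>
    have e : LB al a N (fun i => ∑ t ∈ s, g t * f t i) =
        fun i => ∑ t ∈ s, g t * LB al a N (f t) i :=
      funext fun i => LB_sum s al a N g hg f i
    rw [Function.iterate_succ_apply, e, ih (fun t => LB al a N (f t))]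
    rfl

lemma LB1it_sum {ι : Type} (s : Finset ι) (al : K) (a : Fin 3) (N : ℕ) (g : ι → B3 K)
    (hg : ∀ t k, dB al a k (g t) = 0) (m : ℕ) (f : ι → ℕ → ℕ → B3 K) :
    (LB1 al a N)^[m] (fun i j => ∑ t ∈ s, g t * f t i j) =
      fun i j => ∑ t ∈ s, g t * ((LB1 al a N)^[m] (f t)) i j := by
  induction m generalizing f with
  | zero => rfl
  | succ m ih =>
    have e : LB1 al a N (fun i j => ∑ t ∈ s, g t * f t i j) =
        fun i j => ∑ t ∈ s, g t * LB1 al a N (f t) i j :=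
      funext fun i => funext fun j => LB_sum s al a N g hg (fun t i' => f t i' j) i
    rw [Function.iterate_succ_apply, e, ih (fun t => LB1 al a N (f t))]
    rfl

lemma pp_S {n : ℕ} (r : n.Partition) : pp K r ∈ S K n :=
  mem_S (fun h => absurd (r.parts_pos h) (lt_irrefl 0)) r.parts_sum

lemma eq_sum {n : ℕ} {f : Lam K} (hf : f ∈ S K n) :
    f = ∑ t : n.Partition, coeff (expo t) f • pp K t := by
  obtain ⟨v, rfl⟩ := exists_toL hf
  simp only [coeff_toL]
  unfold toL
  refine Finset.sum_congr rfl fun r _ => ?_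
  rw [smul_eq_C_mul]

lemma coeff_Bs (al : K) (f : Lam K) (j : ℕ) :
    (Bs al f).coeff j = C (al * ((j + 1 : ℕ) : K)) * pderiv (j + 1) f := by
  rw [Bs_apply, Polynomial.coeff_divX, FormM.coeff_U]

lemma LB1it_ker (al : K) (hKer : KerSt K al) {n N : ℕ} (hn : n ≤ N) {b c : Fin 3} (hbc : b ≠ c)
    (m : ℕ) (A : LW K →ₗ[K] LW K) (hA : ∀ G ∈ T K n, A G ∈ T K n) :
    (LB1 al b N)^[m] (kerW al n A b c) = kerW al n ((Zf al ^ m) ∘ₗ A) b c := by
  induction m with
  | zero => rfl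
  | succ m ih =>
    rw [Function.iterate_succ_apply', ih]
    funext i j
    rw [hKer.lb n N ((Zf al ^ m) ∘ₗ A) hn (fun G hG => Zf_pow_T al m (hA G hG)) b c hbc,
      pow_succ', Module.End.mul_eq_comp, LinearMap.comp_assoc]

lemma kerL_sum {ι : Type} (s : Finset ι) (al : K) (n : ℕ) (O : Lam K →ₗ[K] Lam K) (x : ι → K)
    (Q : ι → Lam K →ₗ[K] Lam K) (b c : Fin 3)
    (h : ∀ r : n.Partition, O (pp K r) = ∑ v ∈ s, x v • Q v (pp K r)) :
    kerL al n O b c = ∑ v ∈ s, C (x v) * kerL al n (Q v) b c := by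
  unfold kerL
  simp only [Finset.mul_sum]
  rw [Finset.sum_comm]
  refine Finset.sum_congr rfl fun r _ => ?_
  rw [h r, map_sum, Finset.mul_sum, Finset.sum_mul]
  refine Finset.sum_congr rfl fun v _ => ?_
  rw [map_smul, smul_eq_C_mul]
  ring

/-- The two Lax operators agree on the kernel of an extension. -/
lemma L_part (al : K) (hKer : KerSt K al) {n N : ℕ} (hn : n ≤ N) {Q : Lam K →ₗ[K] Lam K}
    {P : LW K →ₗ[K] LW K} (hP : IsHat al n Q P) {b c : Fin 3} (hbc : b ≠ c) (i j : ℕ) :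
    LB1 al b N (kerW al n P b c) i j = LB2 al c N (kerW al n P b c) i j := by
  have hZT : ∀ G ∈ T K n, (Zf al ∘ₗ P) G ∈ T K n := by
    intro G hG
    rw [LinearMap.comp_apply]
    exact Zf_T _ (hP.t G hG)
  have e3 : LB2 al c N (kerW al n P b c) i j = LB1 al c N (kerW al n P c b) j i := by
    have e4 : (fun j' => kerW al n P b c i j') = fun j' => kerW al n P c b j' i :=
      funext fun j' => hKer.sym n P hP.t hP.s b c i j'
    change LB al c N (fun j' => kerW al n P b c i j') j = _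
    rw [e4]
    rfl
  rw [e3, hKer.lb n N P hn hP.t b c hbc, hKer.lb n N P hn hP.t c b hbc.symm]
  refine hKer.sym n (Zf al ∘ₗ P) hZT ?_ b c i j
  intro F hF G hG
  rw [LinearMap.comp_apply, LinearMap.comp_apply, FormExtM.BW_Zf, hP.s F hF _ (Zf_T _ hG),
    hP.z G hG]

/-- The left side of the level identity. -/
lemma E_left {ι : Type} [Fintype ι] (al : K) (hE : EmSt K al) {n N : ℕ} (hn : n ≤ N) (m : ℕ)
    (k : ι → B3 K) (hk : ∀ v l, dB al 0 l (k v) = 0) (f : ι → Lam K)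
    (hf : ∀ v, f v ∈ S K (n + 1)) (F : B3 K) (hF : F = ∑ v, em K 0 (f v) * k v) :
    ((LB al 0 N)^[m] (fun j => dB al 0 (j + 1) F)) 0 =
      ∑ v, k v * em K 0 (i0 K ((Zf al ^ m) (Bs al (f v)))) := by
  have e1 : (fun j => dB al 0 (j + 1) F) = fun j => ∑ v, k v * em K 0 ((Bs al (f v)).coeff j) := by
    funext j
    rw [hF, map_sum]
    refine Finset.sum_congr rfl fun v _ => ?_
    rw [Derivation.leibniz, hk, smul_zero, zero_add, dB_em, coeff_Bs, smul_eq_mul]
  rw [e1, LBit_sum Finset.univ al 0 N k hk m (fun v j => em K 0 ((Bs al (f v)).coeff j))]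
  refine Finset.sum_congr rfl fun v _ => ?_
  have h := hE 0 N n m (Bs al (f v)) 1 hn
    (fun k => by rw [← C_1]; exact dB_C _ _ _ _) (Bs_T _ (hf v)) 0
  simp only [mul_one] at h
  rw [h]
  rfl

lemma sum_swap {ι : Type} [Fintype ι] (N : ℕ) (x y : ℕ → B3 K) (g : ι → B3 K)
    (h : ι → ℕ → ℕ → B3 K) :
    ∑ i ∈ Finset.range (N + 1), ∑ j ∈ Finset.range (N + 1), x i * y j * (∑ t, g t * h t i j) =
      ∑ t, g t * ∑ i ∈ Finset.range (N + 1), ∑ j ∈ Finset.range (N + 1),
        x i * y j * h t i j := by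
  simp only [Finset.mul_sum]
  have e6 : ∀ i ∈ Finset.range (N + 1), (∑ j ∈ Finset.range (N + 1), ∑ t : ι,
      x i * y j * (g t * h t i j)) =
      ∑ t : ι, ∑ j ∈ Finset.range (N + 1), x i * y j * (g t * h t i j) :=
    fun i _ => Finset.sum_comm
  rw [Finset.sum_congr rfl e6, Finset.sum_comm]
  refine Finset.sum_congr rfl fun t _ => Finset.sum_congr rfl fun i _ =>
    Finset.sum_congr rfl fun j _ => ?_
  ring

/-- The right side of the level identity. -/
lemma E_right {ι κ : Type} [Fintype ι] [Fintype κ] (al : K) (hKer : KerSt K al) {n N : ℕ}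
    (hn : n ≤ N) (m : ℕ) (g : ι → Lam K) (P : ι → LW K →ₗ[K] LW K)
    (hT : ∀ t, ∀ G ∈ T K n, P t G ∈ T K n) (x : ι → κ → K) (Q : κ → Lam K →ₗ[K] Lam K)
    (hx : ∀ t, ∀ f ∈ S K (n + 1), Bx K ((Zf al ^ m) (P t (Bs al f))) =
      ∑ v, x t v • Q v f) :
    ∑ i ∈ Finset.range (N + 1), ∑ j ∈ Finset.range (N + 1),
      X (1, i + 1) * X (2, j + 1) *
        ((LB1 al 1 N)^[m] (fun i j => ∑ t, em K 0 (g t) * kerW al n (P t) 1 2 i j)) i j =
      ∑ t, em K 0 (g t) * ∑ v, C (x t v) * kerL al (n + 1) (Q v) 1 2 := by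
  have h10 : (1 : Fin 3) ≠ 0 := by decide
  have h12 : (1 : Fin 3) ≠ 2 := by decide
  have e3 : ((LB1 al 1 N)^[m] (fun i j => ∑ t, em K 0 (g t) * kerW al n (P t) 1 2 i j)) =
      fun i j => ∑ t, em K 0 (g t) * kerW al n ((Zf al ^ m) ∘ₗ P t) 1 2 i j := by
    rw [LB1it_sum Finset.univ al 1 N (fun t => em K 0 (g t))
      (fun t k => dB_em_ne _ h10 k _) m (fun t => kerW al n (P t) 1 2)]
    funext i j
    refine Finset.sum_congr rfl fun t _ => ?_
    rw [LB1it_ker _ hKer hn h12 m _ (hT t)]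
  rw [e3, sum_swap N (fun i => X (1, i + 1)) (fun j => X (2, j + 1)) (fun t => em K 0 (g t))
    (fun t i j => kerW al n ((Zf al ^ m) ∘ₗ P t) 1 2 i j)]
  refine Finset.sum_congr rfl fun t _ => ?_
  have hT2 : ∀ G ∈ T K n, ((Zf al ^ m) ∘ₗ P t) G ∈ T K n := by
    intro G hG
    rw [LinearMap.comp_apply]
    exact Zf_pow_T _ m (hT t G hG)
  have e5 := hKer.ee n N ((Zf al ^ m) ∘ₗ P t) hn hT2 1 2
  have e6 : kerL al (n + 1) (Bx K ∘ₗ ((Zf al ^ m) ∘ₗ P t) ∘ₗ Bs al) 1 2 =
      ∑ v, C (x t v) * kerL al (n + 1) (Q v) 1 2 :=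
    kerL_sum Finset.univ _ _ _ _ _ _ _ fun r => hx t _ (pp_S r)
  rw [← e6, ← e5]

lemma em_expand {n : ℕ} {f : Lam K} (hf : f ∈ S K n) :
    em K 0 f = ∑ t : n.Partition, C (coeff (expo t) f) * em K 0 (pp K t) := by
  have h := eq_sum hf
  conv_lhs => rw [h]
  rw [map_sum]
  refine Finset.sum_congr rfl fun t _ => ?_
  rw [map_smul, smul_eq_C_mul]

/-- The system for one weight pair, general form. -/
lemma E_all (al : K) (hE : EmSt K al) (hKer : KerSt K al) {n N : ℕ} (hn : n ≤ N) (m : ℕ)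
    (P : n.Partition → LW K →ₗ[K] LW K) (hT : ∀ t, ∀ G ∈ T K n, P t G ∈ T K n)
    (Q : (n + 1).Partition → Lam K →ₗ[K] Lam K)
    (hx : ∀ t, ∀ f ∈ S K (n + 1), Bx K ((Zf al ^ m) (P t (Bs al f))) =
      ∑ v, coeff (expo t) (i0 K ((Zf al ^ m) (Bs al (pp K v)))) • Q v f)
    (F : B3 K) (hF : F = ∑ v, em K 0 (pp K v) * kerL al (n + 1) (Q v) 1 2) :
    ((LB al 0 N)^[m] (fun j => dB al 0 (j + 1) F)) 0 =
    ∑ i ∈ Finset.range (N + 1), ∑ j ∈ Finset.range (N + 1),
      X (1, i + 1) * X (2, j + 1) *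
        ((LB1 al 1 N)^[m] (fun i j => ∑ t, em K 0 (pp K t) * kerW al n (P t) 1 2 i j)) i j := by
  have h01 : (0 : Fin 3) ≠ 1 := by decide
  have h02 : (0 : Fin 3) ≠ 2 := by decide
  rw [E_left al hE hn m (fun v => kerL al (n + 1) (Q v) 1 2)
    (fun v k => dB_kerL _ _ _ h01 h02 k) (fun v => pp K v) (fun v => pp_S v) F hF,
    E_right al hKer hn m (fun t => pp K t) P hT
      (fun t v => coeff (expo t) (i0 K ((Zf al ^ m) (Bs al (pp K v))))) Q hx]
  have e7 : ∀ v : (n + 1).Partition,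
      em K 0 (i0 K ((Zf al ^ m) (Bs al (pp K v)))) =
      ∑ t : n.Partition, C (coeff (expo t) (i0 K ((Zf al ^ m) (Bs al (pp K v))))) *
        em K 0 (pp K t) :=
    fun v => em_expand (i0_T (Zf_pow_T al m (Bs_T al (pp_S v))))
  simp only [e7, Finset.mul_sum]
  rw [Finset.sum_comm]
  refine Finset.sum_congr rfl fun t _ => Finset.sum_congr rfl fun v _ => ?_
  ring

end SysM

open SysM in
theorem sysm (hH : HatSt QA RatFunc.X)
    (hQ : ∀ {n : ℕ} {J : n.Partition → n.Partition → QA}, IsJack RatFunc.X n J → QtSt J)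
    (hK : KeySt) (hE : EmSt QA RatFunc.X) (hKer : KerSt QA RatFunc.X) (hP : PhiSt) :
    SysSt := by
  classical
  intro J hJ
  have hex : ∀ (n : ℕ) (t : n.Partition), ∃ P, IsHat RatFunc.X n (Qt RatFunc.X (J n) t) P := by
    intro n t
    have q := hQ (hJ n)
    exact hH n _ (fun f _ => q.mem t f) (q.sym t) (q.mo t)
  choose P hPh using hex
  have h10 : (1 : Fin 3) ≠ 0 := by decide
  have h20 : (2 : Fin 3) ≠ 0 := by decide
  have h12 : (1 : Fin 3) ≠ 2 := by decide
  refine ⟨fun n i j => ∑ t : n.Partition,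
    em QA 0 (pp QA t) * kerW RatFunc.X n (P n t) 1 2 i j, ⟨?_, ?_, ?_, ?_, ?_⟩⟩
  · intro n i
    have e : ∀ t : n.Partition, kerW RatFunc.X n (P n t) 1 2 i 0 =
        if i = 0 then kerL RatFunc.X n (Qt RatFunc.X (J n) t) 1 2 else 0 :=
      fun t => hKer.z1 n (P n t) _ (hPh n t).c 1 2 i
    simp only [e]
    split_ifs with hi
    · exact (hP.ker J hJ n).symm
    · simp
  · intro n i j hi
    refine Finset.sum_eq_zero fun t _ => ?_
    rw [hKer.s1 n _ (hPh n t).t 1 2 i j hi, mul_zero]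
  · intro n i j hj
    refine Finset.sum_eq_zero fun t _ => ?_
    rw [hKer.s2 n _ 1 2 i j hj, mul_zero]
  · intro N n hn i j
    have e1 : LB1 (RatFunc.X : QA) 1 N (fun i j => ∑ t : n.Partition,
        em QA 0 (pp QA t) * kerW RatFunc.X n (P n t) 1 2 i j) i j =
        ∑ t : n.Partition, em QA 0 (pp QA t) *
          LB1 (RatFunc.X : QA) 1 N (kerW RatFunc.X n (P n t) 1 2) i j :=
      LB_sum Finset.univ RatFunc.X 1 N (fun t => em QA 0 (pp QA t))
        (fun t k => dB_em_ne _ h10 k _) (fun t i' => kerW RatFunc.X n (P n t) 1 2 i' j) i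
    have e2 : LB2 (RatFunc.X : QA) 2 N (fun i j => ∑ t : n.Partition,
        em QA 0 (pp QA t) * kerW RatFunc.X n (P n t) 1 2 i j) i j =
        ∑ t : n.Partition, em QA 0 (pp QA t) *
          LB2 (RatFunc.X : QA) 2 N (kerW RatFunc.X n (P n t) 1 2) i j :=
      LB_sum Finset.univ RatFunc.X 2 N (fun t => em QA 0 (pp QA t))
        (fun t k => dB_em_ne _ h20 k _) (fun t j' => kerW RatFunc.X n (P n t) 1 2 i j') j
    rw [e1, e2]
    exact Finset.sum_congr rfl fun t _ => congrArg (fun z => em QA 0 (pp QA t) * z)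
      (L_part RatFunc.X hKer hn (hPh n t) h12 i j)
  · intro m N n hn
    exact E_all RatFunc.X hE hKer hn m (P n) (fun t => (hPh n t).t)
      (fun v => Qt RatFunc.X (J (n + 1)) v)
      (fun t f hf => hK J hJ n t (P n t) (hPh n t) m f hf)
      (PowerSeries.coeff (n + 1) (phi RatFunc.X J)) (hP.ker J hJ (n + 1))

end

end Pool.Agent.MJI
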